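import Pool.Agent.Helper86K9.QD.Seven

/-!
# The relations between `a_0, ..., a_4`
-/

namespace Pool.Agent.Helper86K9.QD

universe u v w

section
variable {k : Type u} [Field k] {q : k} {D : Type v} [DivisionRing D] [Algebra k D] {x y : D}

theorem IsQDiv.x_ne (h : IsQDiv k q D x y) : x ≠ 0 := by
  intro h0
  have := h.li.ne_zero (1, 0)
  simp [h0] at this

theorem IsQDiv.y_ne (h : IsQDiv k q D x y) : y ≠ 0 := by
  intro h0
  have := h.li.ne_zero (0, 1)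
  simp [h0] at this

/-- All relations between the `a_i` which we use. -/
theorem rels (hq : q ≠ 0) (hx : x ≠ 0) (hy : y ≠ 0) (h : x * y = q • (y * x)) (a2 a3 a4 : D)
    (d2 : a2 = x⁻¹ * (y + algebraMap k D q⁻¹))
    (d3 : a3 = y⁻¹ * (a2 + algebraMap k D q⁻¹))
    (d4 : a4 = (x + algebraMap k D q⁻¹) * y⁻¹) :
    (y * x = q⁻¹ • (x * y)) ∧
    (x * a2 = y + algebraMap k D q⁻¹) ∧
    (a2 * x = q⁻¹ • y + algebraMap k D q⁻¹) ∧
    (a2 * y = q⁻¹ • (y * a2)) ∧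
    (y * a3 = a2 + algebraMap k D q⁻¹) ∧
    (a3 * x = a4 + algebraMap k D q⁻¹) ∧
    (a3 * y = q⁻¹ • a2 + algebraMap k D q⁻¹) ∧
    (a4 * y = x + algebraMap k D q⁻¹) ∧
    (a3 * a2 = q⁻¹ • (a2 * a3)) ∧
    (a4 * a2 = q⁻¹ • a3 + algebraMap k D q⁻¹) ∧
    (a2 * a4 = a3 + algebraMap k D q⁻¹) := by
  have a1' : ∀ c : k, algebraMap k D c = c • (1 : D) := fun c => by
    rw [Algebra.smul_def, mul_one]
  have hqq : q⁻¹ * q = 1 := inv_mul_cancel₀ hq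
  have hyx : y * x = q⁻¹ • (x * y) := by rw [h, smul_smul, hqq, one_smul]
  have yxi : y * x⁻¹ = q • (x⁻¹ * y) := by
    have : x⁻¹ * (x * y) * x⁻¹ = x⁻¹ * (q • (y * x)) * x⁻¹ := by rw [h]
    rw [← mul_assoc, inv_mul_cancel₀ hx, one_mul, mul_smul_comm, smul_mul_assoc, ← mul_assoc,
      mul_assoc, mul_inv_cancel₀ hx, mul_one] at this
    exact this
  have yix : y⁻¹ * x = q • (x * y⁻¹) := by
    have : y⁻¹ * (x * y) * y⁻¹ = y⁻¹ * (q • (y * x)) * y⁻¹ := by rw [h]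
    rw [← mul_assoc, mul_assoc (y⁻¹ * x), mul_inv_cancel₀ hy, mul_one, mul_smul_comm,
      smul_mul_assoc, ← mul_assoc, inv_mul_cancel₀ hy, one_mul] at this
    exact this
  rw [a1'] at d2 d3 d4 ⊢
  have e1 : x * a2 = y + q⁻¹ • (1 : D) := by
    rw [d2, ← mul_assoc, mul_inv_cancel₀ hx, one_mul]
  have e2 : a2 * x = q⁻¹ • y + q⁻¹ • (1 : D) := by
    rw [d2, mul_assoc, add_mul, hyx, mul_add, mul_smul_comm, ← mul_assoc, inv_mul_cancel₀ hx,
      one_mul, smul_mul_assoc, one_mul, mul_smul_comm, inv_mul_cancel₀ hx]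
  have e3 : a2 * y = q⁻¹ • (y * a2) := by
    rw [d2, ← mul_assoc, yxi, smul_mul_assoc, smul_smul, hqq, one_smul, mul_assoc, mul_assoc,
      add_mul, mul_add y, smul_mul_assoc, mul_smul_comm, one_mul, mul_one]
  have e4 : y * a3 = a2 + q⁻¹ • (1 : D) := by
    rw [d3, ← mul_assoc, mul_inv_cancel₀ hy, one_mul]
  have yia : y⁻¹ * a2 = q⁻¹ • (a2 * y⁻¹) := by
    have : y⁻¹ * (a2 * y) * y⁻¹ = y⁻¹ * (q⁻¹ • (y * a2)) * y⁻¹ := by rw [e3]
    rw [← mul_assoc, mul_assoc (y⁻¹ * a2), mul_inv_cancel₀ hy, mul_one, mul_smul_comm,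
      smul_mul_assoc, ← mul_assoc, inv_mul_cancel₀ hy, one_mul] at this
    exact this
  have d3' : a3 = q⁻¹ • (a2 * y⁻¹) + q⁻¹ • y⁻¹ := by
    rw [d3, mul_add, yia, mul_smul_comm, mul_one]
  have d4' : a4 = x * y⁻¹ + q⁻¹ • y⁻¹ := by
    rw [d4, add_mul, smul_mul_assoc, one_mul]
  have e5 : a3 * x = a4 + q⁻¹ • (1 : D) := by
    rw [d3, mul_assoc, add_mul, e2, d4', smul_mul_assoc, one_mul, mul_add, mul_add,
      mul_smul_comm, mul_smul_comm, mul_smul_comm, inv_mul_cancel₀ hy, mul_one, yix, smul_smul,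
      hqq, one_smul]
    abel
  have e6 : a3 * y = q⁻¹ • a2 + q⁻¹ • (1 : D) := by
    rw [d3, mul_assoc, add_mul, e3, mul_add, mul_smul_comm, ← mul_assoc, inv_mul_cancel₀ hy,
      one_mul, smul_mul_assoc, one_mul, mul_smul_comm, inv_mul_cancel₀ hy]
  have e7 : a4 * y = x + q⁻¹ • (1 : D) := by
    rw [d4, mul_assoc, inv_mul_cancel₀ hy, mul_one]
  have e8 : a3 * a2 = q⁻¹ • (a2 * a3) := by
    rw [d3, mul_assoc, ← mul_assoc a2, ← mul_assoc y⁻¹]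
    have : a2 * y⁻¹ = q • (y⁻¹ * a2) := by
      rw [yia, smul_smul, mul_inv_cancel₀ hq, one_smul]
    rw [this, smul_mul_assoc, smul_smul, hqq, one_smul, mul_assoc y⁻¹ a2]
    simp only [add_mul, mul_add, mul_smul_comm, smul_mul_assoc, one_mul, mul_one, mul_assoc]
  have e9 : a4 * a2 = q⁻¹ • a3 + q⁻¹ • (1 : D) := by
    rw [d4, mul_assoc, yia, mul_smul_comm, ← mul_assoc, add_mul, e1, d3']
    simp only [add_mul, smul_mul_assoc, one_mul, smul_add, mul_inv_cancel₀ hy]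
    abel
  have e10 : a2 * a4 = a3 + q⁻¹ • (1 : D) := by
    rw [d4, ← mul_assoc, mul_add, e2, d3']
    simp only [add_mul, smul_mul_assoc, one_mul, mul_smul_comm, mul_one, mul_inv_cancel₀ hy]
    abel
  exact ⟨hyx, e1, e2, e3, e4, e5, e6, e7, e8, e9, e10⟩

end

end Pool.Agent.Helper86K9.QD
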