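import Pool.Agent.Helper86K9.QD.Defs

/-!
# The universal property of the q-division ring
-/

namespace Pool.Agent.Helper86K9.QD

universe u v w

section
variable {k : Type u} [Field k] {q : k} {D : Type v} [DivisionRing D] [Algebra k D] {x y : D}

theorem yx_swap (hq : q ≠ 0) (h : x * y = q • (y * x)) : y * x = q⁻¹ • (x * y) := by
  rw [h, smul_smul, inv_mul_cancel₀ hq, one_smul]

theorem y_xpow (hq : q ≠ 0) (h : x * y = q • (y * x)) (i : ℕ) :
    y * x ^ i = q⁻¹ ^ i • (x ^ i * y) := by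
  induction i with
  | zero => simp
  | succ i ih =>
    rw [pow_succ, ← mul_assoc, ih, smul_mul_assoc, mul_assoc, yx_swap hq h, mul_smul_comm,
      smul_smul, ← mul_assoc, ← pow_succ, ← pow_succ]

theorem ypow_xpow (hq : q ≠ 0) (h : x * y = q • (y * x)) (j i : ℕ) :
    y ^ j * x ^ i = q⁻¹ ^ (j * i) • (x ^ i * y ^ j) := by
  induction j with
  | zero => simp
  | succ j ih =>
    rw [pow_succ, mul_assoc, y_xpow hq h, mul_smul_comm, ← mul_assoc, ih, smul_mul_assoc,
      smul_smul, mul_assoc (x ^ i), ← pow_succ, ← pow_add, Nat.succ_mul, Nat.add_comm]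

theorem xpow_y' (h : x * y = q • (y * x)) (j : ℕ) : x * y ^ j = q ^ j • (y ^ j * x) := by
  induction j with
  | zero => simp
  | succ j ih =>
    rw [pow_succ, ← mul_assoc, ih, smul_mul_assoc, mul_assoc, h, mul_smul_comm, smul_smul,
      ← mul_assoc, ← pow_succ]

theorem q_inj (hroot : ∀ n : ℕ, 0 < n → q ^ n ≠ 1) (hq : q ≠ 0) {i j : ℕ}
    (h : q ^ i = q ^ j) : i = j := by
  by_contra hne
  rcases Nat.lt_or_gt_of_ne hne with hlt | hlt
  · apply hroot (j - i) (Nat.sub_pos_of_lt hlt)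
    have : q ^ i * q ^ (j - i) = q ^ i * 1 := by
      rw [← pow_add, Nat.add_sub_cancel' hlt.le, mul_one, h]
    exact mul_left_cancel₀ (pow_ne_zero _ hq) this
  · apply hroot (i - j) (Nat.sub_pos_of_lt hlt)
    have : q ^ j * q ^ (i - j) = q ^ j * 1 := by
      rw [← pow_add, Nat.add_sub_cancel' hlt.le, mul_one, h]
    exact mul_left_cancel₀ (pow_ne_zero _ hq) this

/-- monomials are independent -/
theorem mono_li (hq : q ≠ 0) (hroot : ∀ n : ℕ, 0 < n → q ^ n ≠ 1) (hx : x ≠ 0) (hy : y ≠ 0)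
    (h : x * y = q • (y * x)) : LinearIndependent k (fun n : ℕ × ℕ => x ^ n.1 * y ^ n.2) := by
  classical
  rw [linearIndependent_iff']
  intro S
  induction S using Finset.induction_on with
  | empty => simp
  | insert n0 S hn0 ih =>
    intro f hf
    -- conjugation by x
    have cx : ∀ n : ℕ × ℕ, x * (x ^ n.1 * y ^ n.2) = q ^ n.2 • ((x ^ n.1 * y ^ n.2) * x) := by
      intro n
      rw [← mul_assoc, ← pow_succ', pow_succ, mul_assoc, xpow_y' h, mul_smul_comm, mul_assoc]
    have cy : ∀ n : ℕ × ℕ, (x ^ n.1 * y ^ n.2) * y = q ^ n.1 • (y * (x ^ n.1 * y ^ n.2)) := by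
      intro n
      rw [mul_assoc, ← pow_succ, pow_succ', ← mul_assoc, ← mul_assoc, y_xpow hq h,
        smul_mul_assoc, smul_smul, inv_pow, mul_inv_cancel₀ (pow_ne_zero _ hq), one_smul]
    have h1 : ∑ n ∈ S, ((q ^ n.2 - q ^ n0.2) * f n) • (x ^ n.1 * y ^ n.2) = 0 := by
      have e1 : (∑ n ∈ insert n0 S, (q ^ n.2 * f n) • (x ^ n.1 * y ^ n.2)) * x = 0 := by
        have := congrArg (fun z => x * z) hf
        simp only [mul_zero, Finset.mul_sum, mul_smul_comm, cx] at this
        rw [Finset.sum_mul, ← this]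
        refine Finset.sum_congr rfl fun n _ => ?_
        rw [smul_mul_assoc, smul_smul, mul_comm]
      have e2 := (mul_eq_zero.1 e1).resolve_right hx
      have e3 : ∑ n ∈ insert n0 S, ((q ^ n.2 - q ^ n0.2) * f n) • (x ^ n.1 * y ^ n.2) = 0 := by
        have e4 := congrArg (fun z => q ^ n0.2 • z) hf
        simp only [smul_zero, Finset.smul_sum, smul_smul] at e4
        have := congrArg₂ (fun a b => a - b) e2 e4
        simp only [sub_zero] at this
        rw [← this, ← Finset.sum_sub_distrib]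
        refine Finset.sum_congr rfl fun n _ => ?_
        rw [← sub_smul, sub_mul]
      rw [Finset.sum_insert hn0, sub_self, zero_mul, zero_smul, zero_add] at e3
      exact e3
    have h2 : ∑ n ∈ S, ((q ^ n.1 - q ^ n0.1) * f n) • (x ^ n.1 * y ^ n.2) = 0 := by
      have e1 : y * (∑ n ∈ insert n0 S, (q ^ n.1 * f n) • (x ^ n.1 * y ^ n.2)) = 0 := by
        have := congrArg (fun z => z * y) hf
        simp only [zero_mul, Finset.sum_mul, smul_mul_assoc, cy] at this
        rw [Finset.mul_sum, ← this]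
        refine Finset.sum_congr rfl fun n _ => ?_
        rw [mul_smul_comm, smul_smul, mul_comm]
      have e2 := (mul_eq_zero.1 e1).resolve_left hy
      have e3 : ∑ n ∈ insert n0 S, ((q ^ n.1 - q ^ n0.1) * f n) • (x ^ n.1 * y ^ n.2) = 0 := by
        have e4 := congrArg (fun z => q ^ n0.1 • z) hf
        simp only [smul_zero, Finset.smul_sum, smul_smul] at e4
        have := congrArg₂ (fun a b => a - b) e2 e4
        simp only [sub_zero] at this
        rw [← this, ← Finset.sum_sub_distrib]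
        refine Finset.sum_congr rfl fun n _ => ?_
        rw [← sub_smul, sub_mul]
      rw [Finset.sum_insert hn0, sub_self, zero_mul, zero_smul, zero_add] at e3
      exact e3
    have k1 := ih _ h1
    have k2 := ih _ h2
    have hS : ∀ n ∈ S, f n = 0 := by
      intro n hn
      by_contra hne
      have a1 := (mul_eq_zero.1 (k1 n hn)).resolve_right hne
      have a2 := (mul_eq_zero.1 (k2 n hn)).resolve_right hne
      have b1 := q_inj hroot hq (sub_eq_zero.1 a1)
      have b2 := q_inj hroot hq (sub_eq_zero.1 a2)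
      apply hn0
      have : n = n0 := Prod.ext b2 b1
      rwa [← this]
    intro n hn
    rcases Finset.mem_insert.1 hn with rfl | hn
    · rw [Finset.sum_insert hn0, Finset.sum_eq_zero (fun m hm => by rw [hS m hm, zero_smul]),
        add_zero] at hf
      rcases smul_eq_zero.1 hf with h0 | h0
      · exact h0
      · exact absurd h0 (mul_ne_zero (pow_ne_zero _ hx) (pow_ne_zero _ hy))
    · exact hS n hn

/-- evaluation -/
noncomputable def evF (k : Type u) [Field k] {D : Type v} [DivisionRing D] [Algebra k D]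
    (x y : D) : (ℕ × ℕ →₀ k) →ₗ[k] D :=
  Finsupp.linearCombination k (fun n : ℕ × ℕ => x ^ n.1 * y ^ n.2)

/-- twisted product -/
noncomputable def star (q : k) (F G : ℕ × ℕ →₀ k) : ℕ × ℕ →₀ k :=
  F.sum fun n a => G.sum fun m b => Finsupp.single (n + m) (q⁻¹ ^ (n.2 * m.1) * (a * b))

theorem evF_star (hq : q ≠ 0) (h : x * y = q • (y * x)) (F G : ℕ × ℕ →₀ k) :
    evF k x y (star q F G) = evF k x y F * evF k x y G := by
  rw [star, Finsupp.sum, map_sum]
  simp only [Finsupp.sum, map_sum]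
  rw [evF]
  simp only [Finsupp.linearCombination_single]
  rw [Finsupp.linearCombination_apply, Finsupp.linearCombination_apply, Finsupp.sum, Finsupp.sum,
    Finset.sum_mul_sum]
  refine Finset.sum_congr rfl fun n _ => Finset.sum_congr rfl fun m _ => ?_
  rw [smul_mul_smul_comm, Prod.fst_add, Prod.snd_add]
  have : x ^ n.1 * y ^ n.2 * (x ^ m.1 * y ^ m.2)
      = q⁻¹ ^ (n.2 * m.1) • (x ^ (n.1 + m.1) * y ^ (n.2 + m.2)) := by
    rw [mul_assoc, ← mul_assoc (y ^ n.2), ypow_xpow hq h, smul_mul_assoc, mul_smul_comm,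
      pow_add, pow_add]
    simp only [mul_assoc]
  rw [this, smul_smul, mul_comm (q⁻¹ ^ (n.2 * m.1))]

theorem exists_evF (hq : q ≠ 0) (h : x * y = q • (y * x)) {z : D}
    (hz : z ∈ Algebra.adjoin k {x, y}) : ∃ F, evF k x y F = z := by
  induction hz using Algebra.adjoin_induction with
  | mem z hz =>
    rcases hz with rfl | hz
    · exact ⟨Finsupp.single (1, 0) 1, by simp [evF]⟩
    · rw [Set.mem_singleton_iff] at hz
      subst hz
      exact ⟨Finsupp.single (0, 1) 1, by simp [evF]⟩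
  | algebraMap c =>
    exact ⟨Finsupp.single (0, 0) c, by simp [evF, Algebra.algebraMap_eq_smul_one]⟩
  | add a b _ _ ha hb =>
    obtain ⟨F, rfl⟩ := ha
    obtain ⟨G, rfl⟩ := hb
    exact ⟨F + G, map_add _ _ _⟩
  | mul a b _ _ ha hb =>
    obtain ⟨F, rfl⟩ := ha
    obtain ⟨G, rfl⟩ := hb
    exact ⟨star q F G, evF_star hq h F G⟩

theorem evF_mem (F : ℕ × ℕ →₀ k) : evF k x y F ∈ Algebra.adjoin k {x, y} := by
  rw [evF, Finsupp.linearCombination_apply, Finsupp.sum]
  refine Subalgebra.sum_mem _ fun n _ => Subalgebra.smul_mem _ (Subalgebra.mul_mem _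
    (Subalgebra.pow_mem _ (Algebra.subset_adjoin (by simp)) _)
    (Subalgebra.pow_mem _ (Algebra.subset_adjoin (by simp)) _)) _

end

theorem hom : S_HOM.{u, v, w} := by
  intro k _ q hq hroot D _ _ x y h D' _ _ X Y hX hY hrel
  have hli := mono_li hq hroot hX hY hrel
  have inj1 : Function.Injective (evF k x y) :=
    linearIndependent_iff_injective_finsuppLinearCombination.1 h.li
  have inj2 : Function.Injective (evF k X Y) :=
    linearIndependent_iff_injective_finsuppLinearCombination.1 hli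
  -- transfer
  have tr : ∀ F : ℕ × ℕ →₀ k, evF k x y F ≠ 0 → evF k X Y F ≠ 0 := by
    intro F hF h0
    apply hF
    have : F = 0 := inj2 (by rw [h0, map_zero])
    rw [this, map_zero]
  -- fraction relation
  let Fr : D → D' → Prop := fun d d' => ∃ F G : ℕ × ℕ →₀ k, evF k x y G ≠ 0 ∧
    evF k x y G * d = evF k x y F ∧ evF k X Y G * d' = evF k X Y F
  have fr : ∀ d : D, ∃ F G : ℕ × ℕ →₀ k, evF k x y G ≠ 0 ∧ evF k x y G * d = evF k x y F := by
    intro d
    obtain ⟨a, ha, b, hb, hb0, hab⟩ := h.frac d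
    obtain ⟨F, rfl⟩ := exists_evF hq h.rel ha
    obtain ⟨G, rfl⟩ := exists_evF hq h.rel hb
    exact ⟨F, G, hb0, hab⟩
  have ex : ∀ d, ∃ d', Fr d d' := by
    intro d
    obtain ⟨F, G, hG, e⟩ := fr d
    exact ⟨(evF k X Y G)⁻¹ * evF k X Y F, F, G, hG, e, by
      rw [← mul_assoc, mul_inv_cancel₀ (tr G hG), one_mul]⟩
  -- equality of products transfers
  have teq : ∀ F G F' G' : ℕ × ℕ →₀ k, evF k x y F * evF k x y G = evF k x y F' * evF k x y G' →
      evF k X Y F * evF k X Y G = evF k X Y F' * evF k X Y G' := by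
    intro F G F' G' e
    rw [← evF_star hq h.rel, ← evF_star hq h.rel] at e
    rw [← evF_star hq hrel, ← evF_star hq hrel, inj1 e]
  -- common denominators
  have cd : ∀ G1 G2 : ℕ × ℕ →₀ k, evF k x y G1 ≠ 0 → evF k x y G2 ≠ 0 → ∃ C1 C2 : ℕ × ℕ →₀ k,
      evF k x y C1 ≠ 0 ∧ evF k x y C1 * evF k x y G1 = evF k x y C2 * evF k x y G2 := by
    intro G1 G2 h1 h2
    obtain ⟨F, G, hG, e⟩ := fr (evF k x y G1 * (evF k x y G2)⁻¹)
    refine ⟨G, F, hG, ?_⟩
    rw [← e, mul_assoc, mul_assoc, inv_mul_cancel₀ h2, mul_one]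
  have un : ∀ d d' d'', Fr d d' → Fr d d'' → d' = d'' := by
    rintro d d' d'' ⟨F1, G1, h1, e1, e1'⟩ ⟨F2, G2, h2, e2, e2'⟩
    obtain ⟨C1, C2, hC1, eC⟩ := cd G1 G2 h1 h2
    have eC' := teq _ _ _ _ eC
    have eF : evF k x y C1 * evF k x y F1 = evF k x y C2 * evF k x y F2 := by
      rw [← e1, ← e2, ← mul_assoc, ← mul_assoc, eC]
    have eF' := teq _ _ _ _ eF
    have hne : evF k X Y C1 * evF k X Y G1 ≠ 0 := mul_ne_zero (tr _ hC1) (tr _ h1)
    apply mul_left_cancel₀ hne
    rw [mul_assoc, e1', eF', ← e2', ← mul_assoc, eC']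
  have fadd : ∀ d1 d1' d2 d2', Fr d1 d1' → Fr d2 d2' → Fr (d1 + d2) (d1' + d2') := by
    rintro d1 d1' d2 d2' ⟨F1, G1, h1, e1, e1'⟩ ⟨F2, G2, h2, e2, e2'⟩
    obtain ⟨C1, C2, hC1, eC⟩ := cd G1 G2 h1 h2
    have eC' := teq _ _ _ _ eC
    refine ⟨star q C1 F1 + star q C2 F2, star q C1 G1, ?_, ?_, ?_⟩
    · rw [evF_star hq h.rel]; exact mul_ne_zero hC1 h1
    · rw [map_add, evF_star hq h.rel, evF_star hq h.rel, evF_star hq h.rel, mul_add,
        mul_assoc, e1, eC, mul_assoc, e2]
    · rw [map_add, evF_star hq hrel, evF_star hq hrel, evF_star hq hrel, mul_add,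
        mul_assoc, e1', eC', mul_assoc, e2']
  have fmul : ∀ d1 d1' d2 d2', Fr d1 d1' → Fr d2 d2' → Fr (d1 * d2) (d1' * d2') := by
    rintro d1 d1' d2 d2' ⟨F1, G1, h1, e1, e1'⟩ ⟨F2, G2, h2, e2, e2'⟩
    obtain ⟨C2, C1, hC1, eC⟩ := fr (evF k x y F1 * (evF k x y G2)⁻¹)
    have eC1 : evF k x y C1 * evF k x y F1 = evF k x y C2 * evF k x y G2 := by
      rw [← eC, mul_assoc, mul_assoc, inv_mul_cancel₀ h2, mul_one]
    have eC' := teq _ _ _ _ eC1
    refine ⟨star q C2 F2, star q C1 G1, ?_, ?_, ?_⟩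
    · rw [evF_star hq h.rel]; exact mul_ne_zero hC1 h1
    · rw [evF_star hq h.rel, evF_star hq h.rel, mul_assoc, ← mul_assoc _ d1 d2, e1,
        ← mul_assoc, eC1, mul_assoc, e2]
    · rw [evF_star hq hrel, evF_star hq hrel, mul_assoc, ← mul_assoc _ d1' d2', e1',
        ← mul_assoc, eC', mul_assoc, e2']
  have fpoly : ∀ F : ℕ × ℕ →₀ k, Fr (evF k x y F) (evF k X Y F) := by
    intro F
    refine ⟨F, Finsupp.single (0, 0) 1, ?_, ?_, ?_⟩ <;> simp [evF]
  choose φ hφ using ex
  have φF : ∀ F : ℕ × ℕ →₀ k, φ (evF k x y F) = evF k X Y F := fun F =>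
    un _ _ _ (hφ _) (fpoly F)
  have one_x : evF k x y (Finsupp.single (0, 0) 1) = 1 := by simp [evF]
  have one_X : evF k X Y (Finsupp.single (0, 0) 1) = 1 := by simp [evF]
  have zero_x : evF k x y 0 = 0 := map_zero _
  let Φ : D →ₐ[k] D' :=
    { toFun := φ
      map_one' := by rw [← one_x, φF, one_X]
      map_mul' := fun a b => un _ _ _ (hφ _) (fmul _ _ _ _ (hφ a) (hφ b))
      map_zero' := by rw [← zero_x, φF, map_zero]
      map_add' := fun a b => un _ _ _ (hφ _) (fadd _ _ _ _ (hφ a) (hφ b))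
      commutes' := by
        intro c
        have e1 : algebraMap k D c = evF k x y (Finsupp.single (0, 0) c) := by
          simp [evF, Algebra.algebraMap_eq_smul_one]
        have e2 : algebraMap k D' c = evF k X Y (Finsupp.single (0, 0) c) := by
          simp [evF, Algebra.algebraMap_eq_smul_one]
        rw [e1, e2, φF] }
  refine ⟨Φ, ?_, ?_⟩
  · show φ x = X
    have e1 : x = evF k x y (Finsupp.single (1, 0) 1) := by simp [evF]
    have e2 : X = evF k X Y (Finsupp.single (1, 0) 1) := by simp [evF]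
    conv_lhs => rw [e1]
    rw [φF, ← e2]
  · show φ y = Y
    have e1 : y = evF k x y (Finsupp.single (0, 1) 1) := by simp [evF]
    have e2 : Y = evF k X Y (Finsupp.single (0, 1) 1) := by simp [evF]
    conv_lhs => rw [e1]
    rw [φF, ← e2]

end Pool.Agent.Helper86K9.QD
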