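import Pool.Agent.Helper86K9.QD.Fix
import Pool.Agent.Helper86K9.QD.Hom

/-!
# Existence and uniqueness of the automorphism, and the final form of the theorem
-/

namespace Pool.Agent.Helper86K9.QD

universe u v w

section
variable {k : Type u} [Field k] {q : k} {D : Type v} [DivisionRing D] [Algebra k D] {x y : D}

theorem a2_ne (h : IsQDiv k q D x y) : x⁻¹ * (y + algebraMap k D q⁻¹) ≠ 0 := by
  intro h0
  rcases mul_eq_zero.1 h0 with h1 | h1
  · exact inv_ne_zero h.x_ne h1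
  · have hli := linearIndependent_iff'.1 h.li ({(0, 1), (0, 0)} : Finset (ℕ × ℕ))
      (fun n => if n = (0, 1) then 1 else q⁻¹) (by
        rw [Finset.sum_pair (by simp)]
        simp only [pow_zero, pow_one, one_mul, if_true]
        rw [if_neg (by simp), one_smul, ← Algebra.algebraMap_eq_smul_one]
        exact h1)
    have := hli (0, 1) (by simp)
    simp at this

/-- an endomorphism with the prescribed values has order 5 -/
theorem five (hq : q ≠ 0) (h : IsQDiv k q D x y) (ρ : D →ₐ[k] D) (h1 : ρ x = y)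
    (h2 : ρ y = x⁻¹ * (y + algebraMap k D q⁻¹)) (d : D) : ρ (ρ (ρ (ρ (ρ d)))) = d := by
  obtain ⟨e0, e1, e2, e3, e4, e5, e6, e7, e8, e9, e10⟩ :=
    rels hq h.x_ne h.y_ne h.rel _ _ _ rfl rfl rfl
  have hn := a2_ne h
  obtain ⟨a2, ha2⟩ : ∃ z, z = x⁻¹ * (y + algebraMap k D q⁻¹) := ⟨_, rfl⟩
  obtain ⟨a3, ha3⟩ : ∃ z, z = y⁻¹ * (a2 + algebraMap k D q⁻¹) := ⟨_, rfl⟩
  obtain ⟨a4, ha4⟩ : ∃ z, z = (x + algebraMap k D q⁻¹) * y⁻¹ := ⟨_, rfl⟩
  rw [← ha2] at h2 e1 e4 e10 hn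
  rw [← ha3] at e4 e10
  rw [← ha4] at e10
  have p2 : ρ a2 = a3 := by
    rw [ha2, map_mul, map_add, AlgHom.commutes, map_inv₀ ρ x, h1, h2, ha3]
  have p3 : ρ a3 = a4 := by
    rw [ha3, map_mul, map_add, AlgHom.commutes, map_inv₀ ρ y, p2, h2, ← e10, ← mul_assoc,
      inv_mul_cancel₀ hn, one_mul]
  have p4 : ρ a4 = x := by
    rw [ha4, map_mul, map_add, AlgHom.commutes, map_inv₀ ρ y, h1, h2, ← e1, mul_assoc,
      mul_inv_cancel₀ hn, mul_one]
  have : (ρ.comp (ρ.comp (ρ.comp (ρ.comp ρ)))) = AlgHom.id k D := by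
    apply hom_ext h
    · show ρ (ρ (ρ (ρ (ρ x)))) = x
      rw [h1, h2, p2, p3, p4]
    · show ρ (ρ (ρ (ρ (ρ y)))) = y
      rw [h2, p2, p3, p4, h1]
  exact congrArg (fun f : D →ₐ[k] D => f d) this

theorem exists_pi (hq : q ≠ 0) (hroot : ∀ n : ℕ, 0 < n → q ^ n ≠ 1) (h : IsQDiv k q D x y) :
    ∃! π : D ≃ₐ[k] D, π x = y ∧ π y = x⁻¹ * (y + algebraMap k D q⁻¹) := by
  obtain ⟨e0, e1, e2, e3, e4, e5, e6, e7, e8, e9, e10⟩ :=
    rels hq h.x_ne h.y_ne h.rel _ _ _ rfl rfl rfl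
  obtain ⟨ρ, h1, h2⟩ := hom k q hq hroot D x y h D y (x⁻¹ * (y + algebraMap k D q⁻¹)) h.y_ne
    (a2_ne h) (by rw [e3, smul_smul, mul_inv_cancel₀ hq, one_smul])
  have h5 := five hq h ρ h1 h2
  let ρ4 := ρ.comp (ρ.comp (ρ.comp ρ))
  refine ⟨AlgEquiv.ofAlgHom ρ ρ4 (AlgHom.ext fun d => h5 d) (AlgHom.ext fun d => h5 d),
    ⟨h1, h2⟩, ?_⟩
  rintro σ ⟨s1, s2⟩
  apply AlgEquiv.coe_toAlgHom_injective
  apply hom_ext h
  · show σ x = ρ x
    rw [s1, h1]
  · show σ y = ρ y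
    rw [s2, h2]

theorem main (hq : q ≠ 0) (hroot : ∀ n : ℕ, 0 < n → q ^ n ≠ 1) (h : IsQDiv k q D x y)
    (π : D ≃ₐ[k] D) (h1 : π x = y) (h2 : π y = x⁻¹ * (y + algebraMap k D q⁻¹)) :
    Nonempty (fixedRing π ≃ₐ[k] D) ∧
    ∃ u v : D, π u = u ∧ π v = v ∧ u * v = q • (v * u) + (1 - q) • (1 : D) ∧
      ∀ d, π d = d ↔ ∃ a ∈ Algebra.adjoin k {u, v}, ∃ b ∈ Algebra.adjoin k {u, v},
        b ≠ 0 ∧ b * d = a := by
  obtain ⟨φ, u, v, hu, hv, hrel, Fu, Fv, hF⟩ := fixed_range (hom.{u, v, v}) hq hroot h π h1 h2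
  refine ⟨⟨(Subalgebra.equivOfEq _ _ hF).trans
    (AlgEquiv.ofInjective φ (RingHom.injective (φ : D →+* D))).symm⟩, u, v, Fu, Fv, hrel, ?_⟩
  have hadj : ∀ r ∈ Algebra.adjoin k {x, y}, φ r ∈ Algebra.adjoin k {u, v} := by
    intro r hr
    induction hr using Algebra.adjoin_induction with
    | mem z hz =>
      rcases hz with rfl | hz
      · rw [hu]; exact Algebra.subset_adjoin (by simp)
      · rw [Set.mem_singleton_iff] at hz
        subst hz
        rw [hv]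
        exact Subalgebra.sub_mem _ (Subalgebra.mul_mem _ (Algebra.subset_adjoin (by simp))
          (Algebra.subset_adjoin (by simp))) (Subalgebra.one_mem _)
    | algebraMap c => rw [AlgHom.commutes]; exact Subalgebra.algebraMap_mem _ c
    | add a b _ _ ha hb => rw [map_add]; exact Subalgebra.add_mem _ ha hb
    | mul a b _ _ ha hb => rw [map_mul]; exact Subalgebra.mul_mem _ ha hb
  have hfix : ∀ r ∈ Algebra.adjoin k {u, v}, π r = r := by
    intro r hr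
    have hle : Algebra.adjoin k {u, v} ≤ fixedRing π := by
      rw [Algebra.adjoin_le_iff]
      rintro z (rfl | hz)
      · exact Fu
      · rw [Set.mem_singleton_iff] at hz; subst hz; exact Fv
    exact hle hr
  intro d
  constructor
  · intro hd
    have hd' : d ∈ φ.range := by rw [← hF]; exact hd
    obtain ⟨e, rfl⟩ := hd'
    obtain ⟨a, ha, b, hb, hb0, hab⟩ := h.frac e
    refine ⟨φ a, hadj a ha, φ b, hadj b hb, by rwa [Ne, map_eq_zero φ], ?_⟩
    show φ b * φ e = φ a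
    rw [← map_mul, hab]
  · rintro ⟨a, ha, b, hb, hb0, hab⟩
    have : b * π d = b * d := by
      rw [hab]
      conv_lhs => rw [← hfix b hb]
      rw [← map_mul, hab, hfix a ha]
    exact mul_left_cancel₀ hb0 this

end

end Pool.Agent.Helper86K9.QD
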