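import Pool.Agent.Helper86K9.QD.Coord

/-!
# The fixed ring is the range of the embedding
-/

namespace Pool.Agent.Helper86K9.QD

universe u v w

section
variable {k : Type u} [Field k] {q : k} {D : Type v} [DivisionRing D] [Algebra k D] {x y : D}

theorem hom_ext (h : IsQDiv k q D x y) {D' : Type w} [DivisionRing D'] [Algebra k D']
    (f g : D →ₐ[k] D') (hx : f x = g x) (hy : f y = g y) : f = g := by
  have hle : Algebra.adjoin k {x, y} ≤ AlgHom.equalizer f g := by
    rw [Algebra.adjoin_le_iff]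
    rintro z (rfl | hz)
    · exact hx
    · rw [Set.mem_singleton_iff] at hz; subst hz; exact hy
  ext d
  obtain ⟨a, ha, b, hb, hb0, hab⟩ := h.frac d
  have ea : f a = g a := hle ha
  have eb : f b = g b := hle hb
  have h1 : f b * f d = f a := by rw [← map_mul, hab]
  have h2 : g b * g d = g a := by rw [← map_mul, hab]
  have hb' : f b ≠ 0 := by rwa [Ne, map_eq_zero f]
  apply mul_left_cancel₀ hb'
  rw [h1, ea, ← h2, eb]

/-- The left span over the range of `φ` of the five elements. -/
def InW (φ : D →ₐ[k] D) (a : Fin 5 → D) (z : D) : Prop :=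
  ∃ c : Fin 5 → D, z = ∑ m : Fin 5, φ (c m) * a m

theorem InW.add {φ : D →ₐ[k] D} {a : Fin 5 → D} {z z' : D} (h : InW φ a z) (h' : InW φ a z') :
    InW φ a (z + z') := by
  obtain ⟨c, rfl⟩ := h
  obtain ⟨c', rfl⟩ := h'
  exact ⟨c + c', by simp [add_mul, Finset.sum_add_distrib]⟩

theorem InW.mulE {φ : D →ₐ[k] D} {a : Fin 5 → D} {z e : D} (he : e ∈ φ.range) (h : InW φ a z) :
    InW φ a (e * z) := by
  obtain ⟨c, rfl⟩ := h
  obtain ⟨e, rfl⟩ := he
  refine ⟨fun m => e * c m, ?_⟩
  rw [Finset.mul_sum]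
  refine Finset.sum_congr rfl fun m _ => ?_
  rw [← mul_assoc]
  congr 1
  exact (map_mul φ e (c m)).symm

theorem InW.smul {φ : D →ₐ[k] D} {a : Fin 5 → D} {z : D} (t : k) (h : InW φ a z) :
    InW φ a (t • z) := by
  rw [Algebra.smul_def]
  exact InW.mulE (φ.range.algebraMap_mem t) h

theorem InW.sub {φ : D →ₐ[k] D} {a : Fin 5 → D} {z z' : D} (h : InW φ a z) (h' : InW φ a z') :
    InW φ a (z - z') := by
  have := h.add (h'.smul (-1 : k))
  rwa [neg_smul, one_smul, ← sub_eq_add_neg] at this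

theorem InW.gen {φ : D →ₐ[k] D} {a : Fin 5 → D} (m : Fin 5) : InW φ a (a m) := by
  refine ⟨Pi.single m 1, ?_⟩
  rw [Finset.sum_eq_single m]
  · simp
  · intro b _ hb
    rw [Pi.single_eq_of_ne hb, map_zero, zero_mul]
  · intro h; exact absurd (Finset.mem_univ m) h

theorem InW.zero {φ : D →ₐ[k] D} {a : Fin 5 → D} : InW φ a 0 := ⟨0, by simp⟩

theorem InW.sum {φ : D →ₐ[k] D} {a : Fin 5 → D} {ι : Type*} (s : Finset ι) (f : ι → D)
    (h : ∀ i ∈ s, InW φ a (f i)) : InW φ a (∑ i ∈ s, f i) := by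
  classical
  induction s using Finset.induction_on with
  | empty => simpa using InW.zero
  | insert i s hi ih =>
    rw [Finset.sum_insert hi]
    exact (h i (Finset.mem_insert_self _ _)).add
      (ih fun j hj => h j (Finset.mem_insert_of_mem hj))

/-- right multiplication -/
theorem InW.mulR {φ : D →ₐ[k] D} {a : Fin 5 → D} {z r : D} (h : InW φ a z)
    (hr : ∀ m, InW φ a (a m * r)) : InW φ a (z * r) := by
  obtain ⟨c, rfl⟩ := h
  rw [Finset.sum_mul]
  apply InW.sum
  intro m _
  rw [mul_assoc]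
  exact InW.mulE ⟨c m, rfl⟩ (hr m)

theorem InW.adj {φ : D →ₐ[k] D} {a : Fin 5 → D} (hx : ∀ m, InW φ a (a m * x))
    (hy : ∀ m, InW φ a (a m * y)) {r : D} (hr : r ∈ Algebra.adjoin k {x, y}) :
    ∀ m, InW φ a (a m * r) := by
  induction hr using Algebra.adjoin_induction with
  | mem z hz =>
    rcases hz with rfl | hz
    · exact hx
    · rw [Set.mem_singleton_iff] at hz; subst hz; exact hy
  | algebraMap c =>
    intro m
    rw [← Algebra.commutes, ← Algebra.smul_def]
    exact InW.smul c (InW.gen m)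
  | add b c _ _ hb hc => intro m; rw [mul_add]; exact (hb m).add (hc m)
  | mul b c _ _ hb hc => intro m; rw [← mul_assoc]; exact (hb m).mulR hc

/-- Everything is in `W`. -/
theorem InW.all (h : IsQDiv k q D x y) {φ : D →ₐ[k] D} {a : Fin 5 → D}
    (h1 : InW φ a 1) (hx : ∀ m, InW φ a (a m * x)) (hy : ∀ m, InW φ a (a m * y))
    (hind : ∀ c : Fin 5 → D, ∑ m : Fin 5, φ (c m) * a m = 0 → c = 0) (d : D) : InW φ a d := by
  obtain ⟨p, hp, b, hb, hb0, hab⟩ := h.frac d
  choose t ht using InW.adj hx hy hb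
  let L : (Fin 5 → D) →ₗ[D] (Fin 5 → D) :=
    { toFun := fun c n => ∑ m : Fin 5, c m * t m n
      map_add' := by
        intro c c'
        funext i
        simp [add_mul, Finset.sum_add_distrib]
      map_smul' := by
        intro r c
        funext i
        simp [Finset.mul_sum, mul_assoc] }
  have hL : ∀ c : Fin 5 → D, (∑ m : Fin 5, φ (c m) * a m) * b
      = ∑ n : Fin 5, φ (L c n) * a n := by
    intro c
    rw [Finset.sum_mul]
    simp only [mul_assoc, ht]
    simp only [Finset.mul_sum]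
    rw [Finset.sum_comm]
    refine Finset.sum_congr rfl fun n _ => ?_
    show _ = φ (∑ m : Fin 5, c m * t m n) * a n
    rw [map_sum, Finset.sum_mul]
    refine Finset.sum_congr rfl fun m _ => ?_
    rw [map_mul, mul_assoc]
  have hinj : Function.Injective L := by
    rw [injective_iff_map_eq_zero]
    intro c hc
    have h0 := hL c
    rw [hc] at h0
    simp only [Pi.zero_apply, map_zero, zero_mul, Finset.sum_const_zero] at h0
    rcases mul_eq_zero.1 h0 with h0 | h0
    · exact hind c h0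
    · exact absurd h0 hb0
  have hsurj : Function.Surjective L := LinearMap.surjective_of_injective hinj
  obtain ⟨c1, hc1⟩ := h1
  obtain ⟨c, hc⟩ := hsurj c1
  have hz := hL c
  rw [hc, ← hc1] at hz
  have hd : d = (∑ m : Fin 5, φ (c m) * a m) * p := by
    rw [← hab, ← mul_assoc, hz, one_mul]
  rw [hd]
  exact InW.mulR ⟨c, rfl⟩ (InW.adj hx hy hp)

end

end Pool.Agent.Helper86K9.QD
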