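import Pool.Agent.Helper86K9.QD.Nb

/-!
# Coordinates in the normal basis
-/

namespace Pool.Agent.Helper86K9.QD

universe u v w

section
variable {k : Type u} [Field k] {q : k} {D : Type v} [DivisionRing D] [Algebra k D] {x y : D}

/-- the automorphism shifts the `a_i` -/
theorem pi_aa (hq : q ≠ 0) (h : IsQDiv k q D x y) (π : D ≃ₐ[k] D) (h1 : π x = y)
    (h2 : π y = x⁻¹ * (y + algebraMap k D q⁻¹)) (i : Fin 5) :
    π (aa q x y i) = aa q x y (i + 1) := by
  have hx := h.x_ne
  have hy := h.y_ne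
  obtain ⟨e0, e1, e2, e3, e4, e5, e6, e7, e8, e9, e10⟩ := rels hq hx hy h.rel _ _ _ rfl rfl rfl
  have p2 : π (x⁻¹ * (y + algebraMap k D q⁻¹))
      = y⁻¹ * (x⁻¹ * (y + algebraMap k D q⁻¹) + algebraMap k D q⁻¹) := by
    rw [map_mul, map_inv₀, map_add, AlgEquiv.commutes, h1, h2]
  set a2 := x⁻¹ * (y + algebraMap k D q⁻¹) with ha2
  set a3 := y⁻¹ * (a2 + algebraMap k D q⁻¹) with ha3
  set a4 := (x + algebraMap k D q⁻¹) * y⁻¹ with ha4
  have ha2' : a2 ≠ 0 := by
    intro h0
    have : π y = 0 := by rw [h2, h0]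
    exact hy ((map_eq_zero π).1 this)
  have p3 : π a3 = a4 := by
    rw [ha3, map_mul, map_inv₀, map_add, AlgEquiv.commutes, p2, h2]
    have : a2 * a4 = a3 + algebraMap k D q⁻¹ := e10
    rw [← this, ← mul_assoc, inv_mul_cancel₀ ha2', one_mul]
  have p4 : π a4 = x := by
    rw [ha4, map_mul, map_add, AlgEquiv.commutes, map_inv₀ π y, h1, h2, ← e1, mul_assoc,
      mul_inv_cancel₀ ha2', mul_one]
  fin_cases i
  · exact h1
  · exact h2
  · exact p2
  · exact p3
  · exact p4

/-- The fixed ring. -/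
def fixedRing (π : D ≃ₐ[k] D) : Subalgebra k D :=
  AlgHom.equalizer (π : D →ₐ[k] D) (AlgHom.id k D)

theorem mem_fixedRing (π : D ≃ₐ[k] D) (z : D) : z ∈ fixedRing π ↔ π z = z := Iff.rfl

/-- Every element has coordinates in the fixed ring. -/
theorem exists_coord (hq : q ≠ 0) (hroot : ∀ n : ℕ, 0 < n → q ^ n ≠ 1)
    (h : IsQDiv k q D x y) (π : D ≃ₐ[k] D) (h1 : π x = y)
    (h2 : π y = x⁻¹ * (y + algebraMap k D q⁻¹)) (d : Fin 5 → D)
    (hd : ∀ i, π (d i) = d (i + 1)) :
    ∃ c : Fin 5 → D, (∀ m, π (c m) = c m) ∧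
      ∀ i, ∑ m : Fin 5, c m * aa q x y (m + i) = d i := by
  let L : (Fin 5 → D) →ₗ[D] (Fin 5 → D) :=
    { toFun := fun c i => ∑ m : Fin 5, c m * aa q x y (m + i)
      map_add' := by
        intro c c'
        funext i
        simp [add_mul, Finset.sum_add_distrib]
      map_smul' := by
        intro r c
        funext i
        simp [Finset.mul_sum, mul_assoc] }
  have hinj : Function.Injective L := by
    rw [injective_iff_map_eq_zero]
    intro c hc
    exact nb k q hq hroot D x y h c fun i => congrFun hc i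
  have hsurj : Function.Surjective L := LinearMap.surjective_of_injective hinj
  obtain ⟨c, hc⟩ := hsurj d
  have hc' : ∀ i, ∑ m : Fin 5, c m * aa q x y (m + i) = d i := fun i => congrFun hc i
  refine ⟨c, ?_, hc'⟩
  have hshift : L (fun m => π (c m)) = d := by
    funext i
    show ∑ m : Fin 5, π (c m) * aa q x y (m + i) = d i
    have hi := congrArg π (hc' (i - 1))
    rw [map_sum, hd, sub_add_cancel] at hi
    rw [← hi]
    refine Finset.sum_congr rfl fun m _ => ?_
    rw [map_mul, pi_aa hq h π h1 h2, add_assoc m (i - 1) 1, sub_add_cancel]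
  have := hinj (hshift.trans hc.symm)
  intro m
  exact congrFun this m

/-- Uniqueness of coordinates in the fixed ring. -/
theorem coord_unique (hq : q ≠ 0) (hroot : ∀ n : ℕ, 0 < n → q ^ n ≠ 1)
    (h : IsQDiv k q D x y) (π : D ≃ₐ[k] D) (h1 : π x = y)
    (h2 : π y = x⁻¹ * (y + algebraMap k D q⁻¹)) (c : Fin 5 → D)
    (hc : ∀ m, π (c m) = c m) (h0 : ∑ m : Fin 5, c m * aa q x y m = 0) : c = 0 := by
  apply nb k q hq hroot D x y h c
  have step : ∀ i : Fin 5, ∑ m : Fin 5, c m * aa q x y (m + i) = 0 →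
      ∑ m : Fin 5, c m * aa q x y (m + (i + 1)) = 0 := by
    intro i ih
    have hi := congrArg π ih
    rw [map_sum, map_zero] at hi
    rw [← hi]
    refine Finset.sum_congr rfl fun m _ => ?_
    rw [map_mul, pi_aa hq h π h1 h2, hc, add_assoc]
  have s0 : ∑ m : Fin 5, c m * aa q x y (m + 0) = 0 := by simpa using h0
  have s1 := step 0 s0
  have s2 := step _ s1
  have s3 := step _ s2
  have s4 := step _ s3
  intro i
  fin_cases i
  · exact s0
  · exact s1
  · exact s2
  · exact s3
  · exact s4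

end

end Pool.Agent.Helper86K9.QD
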