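import Mathlib

/-!
# The q-division ring and the order five automorphism (MP_fd4dc8_al)

`IsQDiv k q D x y`: `D` is the division ring of (left) fractions of the quantum plane
`k_q[x,y] = k<x,y>/(x y - q y x)`.
-/

namespace Pool.Agent.Helper86K9.QD

universe u v w

/-- The division ring `D` (a `k`-algebra) is the division ring of fractions of the quantum plane
`k_q[x,y]`: the elements `x`, `y` satisfy `x y = q y x`, the monomials `x^i y^j` are linearly
independent over `k` (so the subalgebra generated by `x`, `y` is the quantum plane), and every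
element of `D` is a fraction `b⁻¹ a` with `a`, `b` in this subalgebra. -/
structure IsQDiv (k : Type u) [Field k] (q : k) (D : Type v) [DivisionRing D] [Algebra k D]
    (x y : D) : Prop where
  rel : x * y = q • (y * x)
  li : LinearIndependent k (fun n : ℕ × ℕ => x ^ n.1 * y ^ n.2)
  frac : ∀ d : D, ∃ a ∈ Algebra.adjoin k {x, y}, ∃ b ∈ Algebra.adjoin k {x, y},
    b ≠ 0 ∧ b * d = a

/-- The five elements `a_0 = x`, `a_1 = y`, `a_{n+1} = a_{n-1}⁻¹ (a_n + q⁻¹)`. -/
noncomputable def aa {k : Type u} [Field k] (q : k) {D : Type v} [DivisionRing D] [Algebra k D]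
    (x y : D) : Fin 5 → D :=
  ![x, y, x⁻¹ * (y + algebraMap k D q⁻¹),
    y⁻¹ * (x⁻¹ * (y + algebraMap k D q⁻¹) + algebraMap k D q⁻¹),
    (x + algebraMap k D q⁻¹) * y⁻¹]

/-- [HOM] universal property of the q-division ring. -/
def S_HOM : Prop :=
  ∀ (k : Type u) [Field k] (q : k), q ≠ 0 → (∀ n : ℕ, 0 < n → q ^ n ≠ 1) →
  ∀ (D : Type v) [DivisionRing D] [Algebra k D] (x y : D), IsQDiv k q D x y →
  ∀ (D' : Type w) [DivisionRing D'] [Algebra k D'] (X Y : D'), X ≠ 0 → Y ≠ 0 →
    X * Y = q • (Y * X) →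
    ∃ φ : D →ₐ[k] D', φ x = X ∧ φ y = Y

/-- [NB] the circulant matrix `(a_{m+i})` is injective (normal basis). Indices modulo 5. -/
def S_NB : Prop :=
  ∀ (k : Type u) [Field k] (q : k), q ≠ 0 → (∀ n : ℕ, 0 < n → q ^ n ≠ 1) →
  ∀ (D : Type v) [DivisionRing D] [Algebra k D] (x y : D), IsQDiv k q D x y →
  ∀ c : Fin 5 → D, (∀ i : Fin 5, ∑ m : Fin 5, c m * aa q x y (m + i) = 0) → c = 0

end Pool.Agent.Helper86K9.QD
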