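import Pool.Agent.Helper86K9.QD.Close

/-!
# The fixed ring is isomorphic to `D`
-/

namespace Pool.Agent.Helper86K9.QD

universe u v w

section
variable {k : Type u} [Field k] {q : k} {D : Type v} [DivisionRing D] [Algebra k D] {x y : D}

theorem fixed_range (hom : S_HOM.{u, v, v}) (hq : q ≠ 0) (hroot : ∀ n : ℕ, 0 < n → q ^ n ≠ 1)
    (h : IsQDiv k q D x y) (π : D ≃ₐ[k] D) (h1 : π x = y)
    (h2 : π y = x⁻¹ * (y + algebraMap k D q⁻¹)) :
    ∃ (φ : D →ₐ[k] D) (u v : D), φ x = u ∧ φ y = u * v - 1 ∧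
      u * v = q • (v * u) + (1 - q) • (1 : D) ∧ π u = u ∧ π v = v ∧ fixedRing π = φ.range := by
  have hx := h.x_ne
  have hy := h.y_ne
  have q1 : q ≠ 1 := by simpa using hroot 1 one_pos
  have q5 : q ^ 5 ≠ 1 := hroot 5 (by norm_num)
  obtain ⟨e0, e1, e2, e3, e4, e5, e6, e7, e8, e9, e10⟩ := rels hq hx hy h.rel _ _ _ rfl rfl rfl
  obtain ⟨c, hcF, hc⟩ := exists_coord hq hroot h π h1 h2
    (fun i => aa q x y i * aa q x y (i + 1))
    (fun i => by rw [map_mul, pi_aa hq h π h1 h2, pi_aa hq h π h1 h2])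
  have hπa := pi_aa hq h π h1 h2
  have huniq := coord_unique hq hroot h π h1 h2
  obtain ⟨a2, ha2⟩ : ∃ z, z = x⁻¹ * (y + algebraMap k D q⁻¹) := ⟨_, rfl⟩
  obtain ⟨a3, ha3⟩ : ∃ z, z = y⁻¹ * (a2 + algebraMap k D q⁻¹) := ⟨_, rfl⟩
  obtain ⟨a4, ha4⟩ : ∃ z, z = (x + algebraMap k D q⁻¹) * y⁻¹ := ⟨_, rfl⟩
  have A0 : aa q x y 0 = x := rfl
  have A1 : aa q x y 1 = y := rfl
  have A2 : aa q x y 2 = a2 := ha2.symm
  have A3 : aa q x y 3 = a3 := by rw [ha3, ha2]; rfl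
  have A4 : aa q x y 4 = a4 := ha4.symm
  rw [← ha2] at e1 e2 e3 e4 e5 e6 e8 e9 e10
  rw [← ha3] at e4 e5 e6 e8 e9 e10
  rw [← ha4] at e5 e7 e9 e10
  -- the sum
  set s : D := x + y + a2 + a3 + a4 with hs
  have hsum : ∑ m : Fin 5, aa q x y m = s := by
    rw [Fin.sum_univ_five, A0, A1, A2, A3, A4]
  have hsF : π s = s := by
    conv_lhs => rw [← hsum]
    rw [map_sum]
    simp only [hπa]
    rw [Fin.sum_univ_five]
    show aa q x y 1 + aa q x y 2 + aa q x y 3 + aa q x y 4 + aa q x y 0 = s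
    rw [A0, A1, A2, A3, A4, hs]
    abel
  have hs0 : s ≠ 0 := by
    intro h0
    have := huniq (fun _ => 1) (fun m => map_one π) (by simp only [one_mul]; rw [hsum, h0])
    exact one_ne_zero (congrFun this 0)
  have hws : s⁻¹ * s = 1 := inv_mul_cancel₀ hs0
  -- coordinates
  obtain ⟨m0, hm0⟩ : ∃ z, z = c 0 := ⟨_, rfl⟩
  obtain ⟨m1, hm1⟩ : ∃ z, z = c 1 := ⟨_, rfl⟩
  obtain ⟨m2, hm2⟩ : ∃ z, z = c 2 := ⟨_, rfl⟩
  obtain ⟨m3, hm3⟩ : ∃ z, z = c 3 := ⟨_, rfl⟩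
  obtain ⟨m4, hm4⟩ : ∃ z, z = c 4 := ⟨_, rfl⟩
  have h01 : x * y = m0 * x + m1 * y + m2 * a2 + m3 * a3 + m4 * a4 := by
    have := hc 0
    rw [Fin.sum_univ_five] at this
    rw [hm0, hm1, hm2, hm3, hm4, ← A2, ← A3, ← A4]
    exact this.symm
  have h12 : y * a2 = m0 * y + m1 * a2 + m2 * a3 + m3 * a4 + m4 * x := by
    have := hc 1
    rw [Fin.sum_univ_five] at this
    rw [hm0, hm1, hm2, hm3, hm4, ← A2, ← A3, ← A4]
    exact this.symm
  have h23 : a2 * a3 = m0 * a2 + m1 * a3 + m2 * a4 + m3 * x + m4 * y := by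
    have := hc 2
    rw [Fin.sum_univ_five] at this
    rw [hm0, hm1, hm2, hm3, hm4, ← A2, ← A3, ← A4]
    exact this.symm
  have h40 : a4 * x = m0 * a4 + m1 * x + m2 * y + m3 * a2 + m4 * a3 := by
    have := hc 4
    rw [Fin.sum_univ_five] at this
    rw [hm0, hm1, hm2, hm3, hm4, ← A2, ← A3, ← A4]
    exact this.symm
  have F0 : m0 ∈ fixedRing π := by rw [mem_fixedRing, hm0, hcF]
  have F1 : m1 ∈ fixedRing π := by rw [mem_fixedRing, hm1, hcF]
  have F2 : m2 ∈ fixedRing π := by rw [mem_fixedRing, hm2, hcF]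
  have F3 : m3 ∈ fixedRing π := by rw [mem_fixedRing, hm3, hcF]
  have F4 : m4 ∈ fixedRing π := by rw [mem_fixedRing, hm4, hcF]
  have Fs : s ∈ fixedRing π := hsF
  have Fw : s⁻¹ ∈ fixedRing π := by rw [mem_fixedRing, map_inv₀ π s, hsF]
  have ind : ∀ e0 ∈ fixedRing π, ∀ e1 ∈ fixedRing π, ∀ e2 ∈ fixedRing π, ∀ e3 ∈ fixedRing π,
      ∀ e4 ∈ fixedRing π, e0 * x + e1 * y + e2 * a2 + e3 * a3 + e4 * a4 = 0 →
      e0 = 0 ∧ e1 = 0 ∧ e2 = 0 ∧ e3 = 0 ∧ e4 = 0 := by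
    intro e0 i0 e1 i1 e2 i2 e3 i3 e4 i4 hsum0
    have := huniq ![e0, e1, e2, e3, e4] (by
      intro m; fin_cases m <;> assumption) (by
      rw [Fin.sum_univ_five, A0, A1, A2, A3, A4]; exact hsum0)
    exact ⟨congrFun this 0, congrFun this 1, congrFun this 2, congrFun this 3, congrFun this 4⟩
  obtain ⟨T, T', g0, g1, g2, g3, g4, k0, k1, k3, k4⟩ := gh q hq (fixedRing π) x y a2 a3 a4
    m0 m1 m2 m3 m4 s⁻¹ hws h01 h12 h23 h40 e0 e3 e8 e1 e6 e9 e7 F0 F1 F2 F3 F4 Fw Fs ind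
  rw [← hs] at g2 k1
  obtain ⟨u, hu⟩ : ∃ z, z = m3 - m4 := ⟨_, rfl⟩
  obtain ⟨v, hv⟩ : ∃ z, z = m3 - m2 := ⟨_, rfl⟩
  obtain ⟨P, hP⟩ : ∃ z, z = m0 - m3 := ⟨_, rfl⟩
  obtain ⟨R, hR⟩ : ∃ z, z = m1 - m3 := ⟨_, rfl⟩
  have E4 : m3 - u = m4 := by rw [hu]; abel
  have E2 : m3 - v = m2 := by rw [hv]; abel
  have E0 : m3 + P = m0 := by rw [hP]; abel
  have E1 : m3 + R = m1 := by rw [hR]; abel
  have E12 : R + v + 1 = m1 - m2 + 1 := by rw [hR, hv]; abel
  have E02 : P + v = m0 - m2 := by rw [hP, hv]; abel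
  have E42 : v - u = m4 - m2 := by rw [hu, hv]; abel
  obtain ⟨r1, r2, r3, r4, r5, r6, r7⟩ := seven q hq m3 u v P R s T T'
    (by rw [E4, hu, hv]; exact g0) (by rw [E4, E0, hu, hv, hR]; exact g1)
    (by rw [E1, E0, hu, hv]; exact g2) (by rw [E1, E2, hu, hv, hP]; exact g3)
    (by rw [E2, hu, hv]; exact g4) (by rw [E4, E0, E12, hv]; exact k0)
    (by rw [E0, E1, E4, E12, E02, hv]; exact k1) (by rw [E42, E12, E2, E1, hv]; exact k3)
    (by rw [E12, E2, E4, hv]; exact k4)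
  obtain ⟨hu0, huv⟩ := nonzero q hq q1 q5 u v P R r1 r2 r3 r5 r6
  have Fu : π u = u := by rw [hu, map_sub]; rw [show π m3 = m3 from F3, show π m4 = m4 from F4]
  have Fv : π v = v := by rw [hv, map_sub]; rw [show π m3 = m3 from F3, show π m2 = m2 from F2]
  have hcomm : u * (u * v - 1) = q • ((u * v - 1) * u) := by
    rw [sub_mul, mul_sub, mul_one, one_mul, mul_assoc, smul_sub, ← mul_smul_comm]
    have : q • (v * u) = u * v - (1 - q) • (1 : D) := by rw [r1]; abel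
    rw [this, mul_sub, mul_smul_comm, mul_one, sub_smul, one_smul]
    abel
  obtain ⟨φ, hφx, hφy⟩ := hom k q hq hroot D x y h D u (u * v - 1) hu0
    (sub_ne_zero.2 huv) hcomm
  refine ⟨φ, u, v, hφx, hφy, r1, Fu, Fv, ?_⟩
  have hπφ : (π : D →ₐ[k] D).comp φ = φ := by
    apply hom_ext h
    · show π (φ x) = φ x
      rw [hφx, Fu]
    · show π (φ y) = φ y
      rw [hφy, map_sub, map_mul, map_one, Fu, Fv]
  have hφF : ∀ d, π (φ d) = φ d := fun d => congrArg (fun f : D →ₐ[k] D => f d) hπφ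
  have hinv : ∀ z ∈ φ.range, z⁻¹ ∈ φ.range := by
    rintro z ⟨d, rfl⟩
    exact ⟨d⁻¹, map_inv₀ φ d⟩
  obtain ⟨vE, PE, RE, sE, mE⟩ := mem_E q hq m3 u v P R s r2 r3 r4 r7 hu0 huv hs0 φ.range hinv
    ⟨x, hφx⟩ ⟨y, hφy⟩
  have uE : u ∈ φ.range := ⟨x, hφx⟩
  have M0 : m0 ∈ φ.range := by rw [← E0]; exact add_mem mE PE
  have M1 : m1 ∈ φ.range := by rw [← E1]; exact add_mem mE RE
  have M2 : m2 ∈ φ.range := by rw [← E2]; exact sub_mem mE vE
  have M4 : m4 ∈ φ.range := by rw [← E4]; exact sub_mem mE uE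
  have wE : s⁻¹ ∈ φ.range := hinv _ sE
  -- the span W
  have W0 : InW φ (aa q x y) x := by rw [← A0]; exact InW.gen 0
  have W1 : InW φ (aa q x y) y := by rw [← A1]; exact InW.gen 1
  have W2 : InW φ (aa q x y) a2 := by rw [← A2]; exact InW.gen 2
  have W3 : InW φ (aa q x y) a3 := by rw [← A3]; exact InW.gen 3
  have W4 : InW φ (aa q x y) a4 := by rw [← A4]; exact InW.gen 4
  have Wone : InW φ (aa q x y) 1 := by
    rw [← hws]
    conv => arg 3; rw [hs]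
    rw [mul_add, mul_add, mul_add, mul_add]
    exact ((((W0.mulE wE).add (W1.mulE wE)).add (W2.mulE wE)).add (W3.mulE wE)).add (W4.mulE wE)
  have Wc : InW φ (aa q x y) (algebraMap k D q⁻¹) := by
    rw [Algebra.algebraMap_eq_smul_one]; exact Wone.smul _
  have W01 : InW φ (aa q x y) (x * y) := by
    rw [h01]
    exact ((((W0.mulE M0).add (W1.mulE M1)).add (W2.mulE M2)).add (W3.mulE mE)).add (W4.mulE M4)
  have W12 : InW φ (aa q x y) (y * a2) := by
    rw [h12]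
    exact ((((W1.mulE M0).add (W2.mulE M1)).add (W3.mulE M2)).add (W4.mulE mE)).add (W0.mulE M4)
  have W40 : InW φ (aa q x y) (a4 * x) := by
    rw [h40]
    exact ((((W4.mulE M0).add (W0.mulE M1)).add (W1.mulE M2)).add (W2.mulE mE)).add (W3.mulE M4)
  have W10 : InW φ (aa q x y) (y * x) := by rw [e0]; exact W01.smul _
  have W20 : InW φ (aa q x y) (a2 * x) := by rw [e2]; exact (W1.smul _).add Wc
  have W30 : InW φ (aa q x y) (a3 * x) := by rw [e5]; exact W4.add Wc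
  have W00 : InW φ (aa q x y) (x * x) := by
    have : x * x = s * x - y * x - a2 * x - a3 * x - a4 * x := by
      rw [hs, add_mul, add_mul, add_mul, add_mul]; abel
    rw [this]
    exact ((((W0.mulE sE).sub W10).sub W20).sub W30).sub W40
  have W21 : InW φ (aa q x y) (a2 * y) := by rw [e3]; exact W12.smul _
  have W31 : InW φ (aa q x y) (a3 * y) := by rw [e6]; exact (W2.smul _).add Wc
  have W41 : InW φ (aa q x y) (a4 * y) := by rw [e7]; exact W0.add Wc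
  have W11 : InW φ (aa q x y) (y * y) := by
    have : y * y = s * y - x * y - a2 * y - a3 * y - a4 * y := by
      rw [hs, add_mul, add_mul, add_mul, add_mul]; abel
    rw [this]
    exact ((((W1.mulE sE).sub W01).sub W21).sub W31).sub W41
  have Wx : ∀ m, InW φ (aa q x y) (aa q x y m * x) := by
    intro m
    fin_cases m
    · exact W00
    · exact W10
    · show InW φ _ (aa q x y 2 * x); rw [A2]; exact W20
    · show InW φ _ (aa q x y 3 * x); rw [A3]; exact W30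
    · show InW φ _ (aa q x y 4 * x); rw [A4]; exact W40
  have Wy : ∀ m, InW φ (aa q x y) (aa q x y m * y) := by
    intro m
    fin_cases m
    · exact W01
    · exact W11
    · show InW φ _ (aa q x y 2 * y); rw [A2]; exact W21
    · show InW φ _ (aa q x y 3 * y); rw [A3]; exact W31
    · show InW φ _ (aa q x y 4 * y); rw [A4]; exact W41
  have hind : ∀ c : Fin 5 → D, ∑ m : Fin 5, φ (c m) * aa q x y m = 0 → c = 0 := by
    intro c hc0
    have := huniq (fun m => φ (c m)) (fun m => hφF _) hc0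
    funext m
    exact (map_eq_zero φ).1 (congrFun this m)
  apply le_antisymm
  · intro f hf
    obtain ⟨c', hc'⟩ := InW.all h Wone Wx Wy hind f
    have hf' : π f = f := hf
    have h3 : ∑ m : Fin 5, (φ (c' m) - f * s⁻¹) * aa q x y m = 0 := by
      simp only [sub_mul]
      rw [Finset.sum_sub_distrib, ← hc', ← Finset.mul_sum, hsum, mul_assoc, hws, mul_one,
        sub_self]
    have h4 := huniq _ (fun m => by
      rw [map_sub, hφF, map_mul, map_inv₀ π s, hf', hsF]) h3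
    have h5 : φ (c' 0) - f * s⁻¹ = 0 := congrFun h4 0
    have h6 : f = φ (c' 0) * s := by
      rw [sub_eq_zero.1 h5, mul_assoc, hws, mul_one]
    rw [h6]
    exact mul_mem ⟨c' 0, rfl⟩ sE
  · rintro z ⟨d, rfl⟩
    exact hφF d

end

end Pool.Agent.Helper86K9.QD
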