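import Pool.Agent.Helper86K9.QD.Aa

/-!
# The normal basis: the circulant matrix `(a_{m+i})` is injective
-/

namespace Pool.Agent.Helper86K9.QD

universe u v w

section
variable {k : Type u} [Field k] {q : k} {D : Type v} [DivisionRing D] [Algebra k D] {x y : D}

theorem xpow_y (h : x * y = q • (y * x)) (l : ℕ) : x ^ l * y = q ^ l • (y * x ^ l) := by
  induction l with
  | zero => simp
  | succ l ih =>
    rw [pow_succ, mul_assoc, h, mul_smul_comm, ← mul_assoc, ih, smul_mul_assoc, smul_smul,
      mul_assoc, pow_succ q, mul_comm q]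

theorem xpow_ypow (h : x * y = q • (y * x)) (l j : ℕ) :
    x ^ l * y ^ j = (q ^ l) ^ j • (y ^ j * x ^ l) := by
  induction j with
  | zero => simp
  | succ j ih =>
    rw [pow_succ, ← mul_assoc, ih, smul_mul_assoc, mul_assoc, xpow_y h, mul_smul_comm, smul_smul,
      ← mul_assoc, pow_succ (q ^ l)]

/-- The span of the monomials `y^j x^l`, `l < n`. -/
def Rlt (k : Type u) [Field k] {D : Type v} [DivisionRing D] [Algebra k D] (x y : D) (n : ℕ) :
    Submodule k D :=
  Submodule.span k {z | ∃ j l : ℕ, l < n ∧ z = y ^ j * x ^ l}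

theorem mem_Rlt (j l n : ℕ) (h : l < n) : y ^ j * x ^ l ∈ Rlt k x y n :=
  Submodule.subset_span ⟨j, l, h, rfl⟩

theorem Rlt_mono {n m : ℕ} (h : n ≤ m) : Rlt k x y n ≤ Rlt k x y m := by
  apply Submodule.span_mono
  rintro z ⟨j, l, hl, rfl⟩
  exact ⟨j, l, lt_of_lt_of_le hl h, rfl⟩

theorem Rlt_mul_x {n : ℕ} {p : D} (hp : p ∈ Rlt k x y n) : p * x ∈ Rlt k x y (n + 1) := by
  induction hp using Submodule.span_induction with
  | mem z hz =>
    obtain ⟨j, l, hl, rfl⟩ := hz
    rw [mul_assoc, ← pow_succ]
    exact mem_Rlt _ _ _ (by omega)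
  | zero => rw [zero_mul]; exact Submodule.zero_mem _
  | add a b _ _ ha hb => rw [add_mul]; exact Submodule.add_mem _ ha hb
  | smul c a _ ha => rw [smul_mul_assoc]; exact Submodule.smul_mem _ _ ha

theorem Rlt_mul_y (h : x * y = q • (y * x)) {n : ℕ} {p : D} (hp : p ∈ Rlt k x y n) :
    p * y ∈ Rlt k x y n := by
  induction hp using Submodule.span_induction with
  | mem z hz =>
    obtain ⟨j, l, hl, rfl⟩ := hz
    rw [mul_assoc, xpow_y h, mul_smul_comm, ← mul_assoc, ← pow_succ]
    exact Submodule.smul_mem _ _ (mem_Rlt _ _ _ hl)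
  | zero => rw [zero_mul]; exact Submodule.zero_mem _
  | add a b _ _ ha hb => rw [add_mul]; exact Submodule.add_mem _ ha hb
  | smul c a _ ha => rw [smul_mul_assoc]; exact Submodule.smul_mem _ _ ha

/-- Every element of `Rlt (n+1)` is `r + f(y) x^n`. -/
theorem Rlt_succ {n : ℕ} {p : D} (hp : p ∈ Rlt k x y (n + 1)) :
    ∃ r ∈ Rlt k x y n, ∃ f : Polynomial k, p = r + Polynomial.aeval y f * x ^ n := by
  induction hp using Submodule.span_induction with
  | mem z hz =>
    obtain ⟨j, l, hl, rfl⟩ := hz
    rcases Nat.lt_succ_iff_lt_or_eq.1 hl with h | h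
    · exact ⟨_, mem_Rlt j l n h, 0, by simp⟩
    · refine ⟨0, Submodule.zero_mem _, Polynomial.X ^ j, ?_⟩
      rw [map_pow, Polynomial.aeval_X, h, zero_add]
  | zero => exact ⟨0, Submodule.zero_mem _, 0, by simp⟩
  | add a b _ _ ha hb =>
    obtain ⟨r, hr, f, rfl⟩ := ha
    obtain ⟨r', hr', f', rfl⟩ := hb
    refine ⟨r + r', Submodule.add_mem _ hr hr', f + f', ?_⟩
    rw [map_add, add_mul]; abel
  | smul c a _ ha =>
    obtain ⟨r, hr, f, rfl⟩ := ha
    refine ⟨c • r, Submodule.smul_mem _ _ hr, c • f, ?_⟩
    rw [map_smul, smul_add, smul_mul_assoc]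

/-- The leading coefficient is unique. -/
theorem lead_zero (hq : q ≠ 0) (h : IsQDiv k q D x y) {n : ℕ} {f : Polynomial k}
    (hf : Polynomial.aeval y f * x ^ n ∈ Rlt k x y n) : f = 0 := by
  classical
  set b : ℕ × ℕ → D := fun m => x ^ m.1 * y ^ m.2 with hb
  have hsub : Rlt k x y n ≤ Submodule.span k (b '' {m | m.1 < n}) := by
    rw [Rlt, Submodule.span_le]
    rintro z ⟨j, l, hl, rfl⟩
    have e : y ^ j * x ^ l = ((q ^ l) ^ j)⁻¹ • b (l, j) := by
      simp only [hb]
      rw [xpow_ypow h.rel, smul_smul, inv_mul_cancel₀ (pow_ne_zero _ (pow_ne_zero _ hq)),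
        one_smul]
    rw [e]
    exact Submodule.smul_mem _ _ (Submodule.subset_span ⟨(l, j), hl, rfl⟩)
  have hf' := hsub hf
  rw [Finsupp.mem_span_image_iff_linearCombination] at hf'
  obtain ⟨G, hG, hGe⟩ := hf'
  set F : ℕ × ℕ →₀ k := ∑ j ∈ f.support, Finsupp.single (n, j) (((q ^ n) ^ j)⁻¹ * f.coeff j)
    with hF
  have hFe : Finsupp.linearCombination k b F = Polynomial.aeval y f * x ^ n := by
    rw [hF, map_sum, Polynomial.aeval_eq_sum_range, Finset.sum_mul]
    rw [← Finset.sum_subset (s₁ := f.support) (s₂ := Finset.range (f.natDegree + 1))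
      (fun j hj => Finset.mem_range.2 (Nat.lt_succ_of_le (Polynomial.le_natDegree_of_mem_supp j hj)))
      (fun j _ hj => by rw [Polynomial.notMem_support_iff.1 hj, zero_smul, zero_mul])]
    refine Finset.sum_congr rfl fun j _ => ?_
    rw [Finsupp.linearCombination_single]
    simp only [hb]
    rw [xpow_ypow h.rel, smul_smul, smul_mul_assoc]
    congr 1
    rw [mul_comm _ (f.coeff j), mul_assoc,
      inv_mul_cancel₀ (pow_ne_zero _ (pow_ne_zero _ hq)), mul_one]
  have hGF : G = F := by
    apply linearIndependent_iff_injective_finsuppLinearCombination.1 h.li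
    exact hGe.trans hFe.symm
  ext j
  rw [Polynomial.coeff_zero]
  have hFj : F (n, j) = ((q ^ n) ^ j)⁻¹ * f.coeff j := by
    rw [hF, Finsupp.finsetSum_apply]
    by_cases hj : j ∈ f.support
    · rw [Finset.sum_eq_single j]
      · simp
      · intro b _ hbj
        rw [Finsupp.single_apply, if_neg]
        intro e; exact hbj (Prod.ext_iff.1 e).2
      · intro h'; exact absurd hj h'
    · rw [Polynomial.notMem_support_iff.1 hj, mul_zero]
      apply Finset.sum_eq_zero
      intro b hbm
      rw [Finsupp.single_apply, if_neg]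
      intro e
      have e2 : b = j := (Prod.ext_iff.1 e).2
      exact hj (e2 ▸ hbm)
  have hG0 : G (n, j) = 0 := by
    by_contra hne
    have := hG (Finsupp.mem_support_iff.2 hne)
    exact lt_irrefl n this
  rw [hGF, hFj] at hG0
  rcases mul_eq_zero.1 hG0 with h0 | h0
  · exact absurd h0 (inv_ne_zero (pow_ne_zero _ (pow_ne_zero _ hq)))
  · exact h0

theorem Rlt_mul_ypow (h : x * y = q • (y * x)) {n : ℕ} {p : D} (hp : p ∈ Rlt k x y n) (j : ℕ) :
    p * y ^ j ∈ Rlt k x y n := by
  induction j with
  | zero => simpa using hp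
  | succ j ih => rw [pow_succ, ← mul_assoc]; exact Rlt_mul_y h ih

theorem Rlt_mul_xpow {n : ℕ} {p : D} (hp : p ∈ Rlt k x y n) (j : ℕ) :
    p * x ^ j ∈ Rlt k x y (n + j) := by
  induction j with
  | zero => simpa using hp
  | succ j ih => rw [pow_succ, ← mul_assoc]; exact Rlt_mul_x ih

theorem Rlt_mul (h : x * y = q • (y * x)) {n m : ℕ} {p p' : D} (hp : p ∈ Rlt k x y n)
    (hp' : p' ∈ Rlt k x y m) : p * p' ∈ Rlt k x y (n + m) := by
  induction hp' using Submodule.span_induction with
  | mem z hz =>
    obtain ⟨j, l, hl, rfl⟩ := hz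
    rw [← mul_assoc]
    exact Rlt_mono (by omega) (Rlt_mul_xpow (Rlt_mul_ypow h hp j) l)
  | zero => rw [mul_zero]; exact Submodule.zero_mem _
  | add a b _ _ ha hb => rw [mul_add]; exact Submodule.add_mem _ ha hb
  | smul c a _ ha => rw [mul_smul_comm]; exact Submodule.smul_mem _ _ ha

theorem mem_adjoin (h : x * y = q • (y * x)) {p : D} (hp : p ∈ Algebra.adjoin k {x, y}) :
    ∃ n, p ∈ Rlt k x y n := by
  induction hp using Algebra.adjoin_induction with
  | mem z hz =>
    rcases hz with rfl | hz
    · exact ⟨2, by simpa using mem_Rlt (k := k) (x := z) (y := y) 0 1 2 (by norm_num)⟩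
    · rw [Set.mem_singleton_iff] at hz
      subst hz
      exact ⟨1, by simpa using mem_Rlt (k := k) (x := x) (y := z) 1 0 1 (by norm_num)⟩
  | algebraMap c =>
    refine ⟨1, ?_⟩
    rw [Algebra.algebraMap_eq_smul_one]
    exact Submodule.smul_mem _ _
      (by simpa using mem_Rlt (k := k) (x := x) (y := y) 0 0 1 (by norm_num))
  | add a b _ _ ha hb =>
    obtain ⟨n, hn⟩ := ha
    obtain ⟨m, hm⟩ := hb
    exact ⟨max n m, Submodule.add_mem _ (Rlt_mono (le_max_left _ _) hn)
      (Rlt_mono (le_max_right _ _) hm)⟩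
  | mul a b _ _ ha hb =>
    obtain ⟨n, hn⟩ := ha
    obtain ⟨m, hm⟩ := hb
    exact ⟨n + m, Rlt_mul h hn hm⟩

theorem common_den (h : IsQDiv k q D x y) {ι : Type*} (s : Finset ι) (c : ι → D) :
    ∃ r ∈ Algebra.adjoin k {x, y}, r ≠ 0 ∧ ∀ m ∈ s, r * c m ∈ Algebra.adjoin k {x, y} := by
  classical
  induction s using Finset.induction_on with
  | empty => exact ⟨1, Subalgebra.one_mem _, one_ne_zero, by simp⟩
  | insert i s hi ih =>
    obtain ⟨r, hr, hr0, hrs⟩ := ih
    obtain ⟨a, ha, b, hb, hb0, hab⟩ := h.frac (c i)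
    obtain ⟨a2, ha2, b2, hb2, hb20, hab2⟩ := h.frac (r * b⁻¹)
    refine ⟨b2 * r, Subalgebra.mul_mem _ hb2 hr, mul_ne_zero hb20 hr0, ?_⟩
    intro m hm
    rcases Finset.mem_insert.1 hm with rfl | hm
    · have e : b2 * r = a2 * b := by
        rw [← hab2, mul_assoc, mul_assoc, inv_mul_cancel₀ hb0, mul_one]
      rw [e, mul_assoc, hab]
      exact Subalgebra.mul_mem _ ha2 ha
    · rw [mul_assoc]
      exact Subalgebra.mul_mem _ hb2 (hrs m hm)

end

theorem nb : S_NB.{u, v} := by
  intro k _ q hq hroot D _ _ x y h c hc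
  have hx := h.x_ne
  have hy := h.y_ne
  obtain ⟨-, e1, e2, -, -, e5, -, e7, -, -, -⟩ := rels hq hx hy h.rel _ _ _ rfl rfl rfl
  have a1' : ∀ c : k, algebraMap k D c = c • (1 : D) := fun c => by
    rw [Algebra.smul_def, mul_one]
  obtain ⟨r, hr, hr0, hrs⟩ := common_den h Finset.univ c
  set p : Fin 5 → D := fun m => r * c m with hp
  have hrow : ∀ i : Fin 5, ∑ m : Fin 5, p m * aa q x y (m + i) = 0 := by
    intro i
    have := congrArg (fun z => r * z) (hc i)
    simpa [Finset.mul_sum, mul_assoc, hp] using this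
  have key : ∀ n : ℕ, (∀ m, p m ∈ Rlt k x y n) → ∀ m, p m = 0 := by
    intro n
    induction n with
    | zero =>
      intro h0 m
      have := h0 m
      have hbot : Rlt k x y 0 = ⊥ := by
        rw [Rlt, Submodule.span_eq_bot]
        rintro z ⟨j, l, hl, -⟩
        omega
      rw [hbot, Submodule.mem_bot] at this
      exact this
    | succ n ih =>
      intro hm
      choose t ht f hf using fun m => Rlt_succ (hm m)
      let lead : Fin 5 → Polynomial k → Polynomial k :=
        ![fun g => q ^ (n + 2) • (g * Polynomial.X), fun _ => 0, fun _ => 0, fun _ => 0,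
          fun g => q • g]
      have hlead : ∀ j m : Fin 5, p m * (aa q x y j * (x * y))
          - Polynomial.aeval y (lead j (f m)) * x ^ (n + 2) ∈ Rlt k x y (n + 2) := by
        intro j m
        have hpx : p m * x ∈ Rlt k x y (n + 2) := Rlt_mul_x (hm m)
        have hp2 : p m ∈ Rlt k x y (n + 2) := Rlt_mono (by omega) (hm m)
        have htxx : t m * x * x ∈ Rlt k x y (n + 2) := Rlt_mul_x (Rlt_mul_x (ht m))
        fin_cases j
        · show p m * (x * (x * y)) - Polynomial.aeval y (q ^ (n + 2) • (f m * Polynomial.X))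
            * x ^ (n + 2) ∈ _
          have : p m * (x * (x * y)) - Polynomial.aeval y (q ^ (n + 2) • (f m * Polynomial.X))
            * x ^ (n + 2) = t m * x * x * y := by
            have e : x ^ n * (x * (x * y)) = q ^ (n + 2) • (y * x ^ (n + 2)) := by
              rw [← xpow_y h.rel, pow_add, pow_two]
              simp only [mul_assoc]
            conv_lhs => rw [hf m]
            rw [add_mul, mul_assoc (Polynomial.aeval y (f m)), e, map_smul, map_mul,
              Polynomial.aeval_X, mul_smul_comm, smul_mul_assoc]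
            simp only [mul_assoc, add_sub_cancel_right]
          rw [this]
          exact Rlt_mul_y h.rel htxx
        · show p m * (y * (x * y)) - Polynomial.aeval y (0 : Polynomial k) * x ^ (n + 2) ∈ _
          rw [map_zero, zero_mul, sub_zero, ← mul_assoc, ← mul_assoc]
          exact Rlt_mul_y h.rel (Rlt_mul_x (Rlt_mul_y h.rel (hm m)))
        · show p m * ((x⁻¹ * (y + algebraMap k D q⁻¹)) * (x * y))
            - Polynomial.aeval y (0 : Polynomial k) * x ^ (n + 2) ∈ _
          rw [map_zero, zero_mul, sub_zero, ← mul_assoc _ x y, e2, a1', add_mul, smul_mul_assoc,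
            smul_mul_assoc, one_mul, mul_add, mul_smul_comm, mul_smul_comm, ← mul_assoc]
          exact Submodule.add_mem _ (Submodule.smul_mem _ _
            (Rlt_mul_y h.rel (Rlt_mul_y h.rel hp2))) (Submodule.smul_mem _ _
            (Rlt_mul_y h.rel hp2))
        · show p m * ((y⁻¹ * (x⁻¹ * (y + algebraMap k D q⁻¹) + algebraMap k D q⁻¹)) * (x * y))
            - Polynomial.aeval y (0 : Polynomial k) * x ^ (n + 2) ∈ _
          rw [map_zero, zero_mul, sub_zero, ← mul_assoc _ x y, e5, add_mul, e7, a1', mul_add,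
            mul_add, smul_mul_assoc, one_mul, mul_smul_comm, mul_smul_comm, mul_one]
          exact Submodule.add_mem _ (Submodule.add_mem _ hpx (Submodule.smul_mem _ _ hp2))
            (Submodule.smul_mem _ _ (Rlt_mul_y h.rel hp2))
        · show p m * (((x + algebraMap k D q⁻¹) * y⁻¹) * (x * y))
            - Polynomial.aeval y (q • f m) * x ^ (n + 2) ∈ _
          have : p m * (((x + algebraMap k D q⁻¹) * y⁻¹) * (x * y))
            - Polynomial.aeval y (q • f m) * x ^ (n + 2) = q • (t m * x * x) + p m * x := by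
            have e : ((x + algebraMap k D q⁻¹) * y⁻¹) * (x * y) = q • (x * x) + x := by
              rw [h.rel, mul_smul_comm, ← mul_assoc, e7, a1', add_mul, smul_mul_assoc, one_mul,
                smul_add, smul_smul, mul_inv_cancel₀ hq, one_smul]
            have e' : x ^ (n + 2) = x ^ n * (x * x) := by rw [pow_add, pow_two]
            have e2 : p m * (x * x) = t m * x * x
                + Polynomial.aeval y (f m) * (x ^ n * (x * x)) := by
              conv_lhs => rw [hf m]
              rw [add_mul]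
              simp only [mul_assoc]
            rw [e, mul_add, mul_smul_comm, e2, e', map_smul, smul_mul_assoc, smul_add]
            abel
          rw [this]
          exact Submodule.add_mem _ (Submodule.smul_mem _ _ htxx) hpx
      have hsum : ∀ i : Fin 5, ∑ m : Fin 5, lead (m + i) (f m) = 0 := by
        intro i
        apply lead_zero (n := n + 2) hq h
        have h1 : ∑ m : Fin 5, (p m * (aa q x y (m + i) * (x * y))
          - Polynomial.aeval y (lead (m + i) (f m)) * x ^ (n + 2)) ∈ Rlt k x y (n + 2) :=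
          Submodule.sum_mem _ fun m _ => hlead (m + i) m
        rw [Finset.sum_sub_distrib] at h1
        have h2 : ∑ m : Fin 5, p m * (aa q x y (m + i) * (x * y)) = 0 := by
          have := congrArg (fun z => z * (x * y)) (hrow i)
          simpa [Finset.sum_mul, mul_assoc] using this
        rw [h2, zero_sub] at h1
        rw [map_sum, Finset.sum_mul]
        exact (Submodule.neg_mem_iff _).1 h1
      have s0 := hsum 0
      have s1 := hsum 1
      have s2 := hsum 2
      have s3 := hsum 3
      have s4 := hsum 4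
      rw [Fin.sum_univ_five] at s0 s1 s2 s3 s4
      have t0 : q ^ (n + 2) • (f 0 * Polynomial.X) + q • f 4 = 0 := by
        have : q ^ (n + 2) • (f 0 * Polynomial.X) + 0 + 0 + 0 + q • f 4 = 0 := s0
        simpa using this
      have t1 : q ^ (n + 2) • (f 4 * Polynomial.X) + q • f 3 = 0 := by
        have : (0 : Polynomial k) + 0 + 0 + q • f 3 + q ^ (n + 2) • (f 4 * Polynomial.X) = 0 := s1
        rw [add_comm]; simpa using this
      have t2 : q ^ (n + 2) • (f 3 * Polynomial.X) + q • f 2 = 0 := by
        have : (0 : Polynomial k) + 0 + q • f 2 + q ^ (n + 2) • (f 3 * Polynomial.X) + 0 = 0 := s2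
        rw [add_comm]; simpa using this
      have t3 : q ^ (n + 2) • (f 2 * Polynomial.X) + q • f 1 = 0 := by
        have : (0 : Polynomial k) + q • f 1 + q ^ (n + 2) • (f 2 * Polynomial.X) + 0 + 0 = 0 := s3
        rw [add_comm]; simpa using this
      have t4 : q ^ (n + 2) • (f 1 * Polynomial.X) + q • f 0 = 0 := by
        have : q • f 0 + q ^ (n + 2) • (f 1 * Polynomial.X) + 0 + 0 + 0 = 0 := s4
        rw [add_comm]; simpa using this
      have step : ∀ g g' : Polynomial k, q ^ (n + 2) • (g * Polynomial.X) + q • g' = 0 →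
          g' = -(Polynomial.C (q ^ (n + 1)) * Polynomial.X) * g := by
        intro g g' hg
        have h1 : q • g' = -(q ^ (n + 2) • (g * Polynomial.X)) := by
          rw [eq_neg_iff_add_eq_zero, add_comm]; exact hg
        have h2 : g' = q⁻¹ • (q • g') := by rw [smul_smul, inv_mul_cancel₀ hq, one_smul]
        rw [h2, h1, smul_neg, smul_smul, pow_succ q (n + 1), mul_comm, mul_assoc,
          mul_inv_cancel₀ hq, mul_one, Polynomial.smul_eq_C_mul]
        ring
      have u0 := step _ _ t0
      have u1 := step _ _ t1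
      have u2 := step _ _ t2
      have u3 := step _ _ t3
      have u4 := step _ _ t4
      have f0 : f 0 = 0 := by
        have e : (1 + (Polynomial.C (q ^ (n + 1)) * Polynomial.X) ^ 5) * f 0 = 0 := by
          have : f 0 = -(Polynomial.C (q ^ (n + 1)) * Polynomial.X) ^ 5 * f 0 := by
            conv_lhs => rw [u4, u3, u2, u1, u0]
            ring
          linear_combination this
        rcases mul_eq_zero.1 e with h0 | h0
        · exfalso
          have := congrArg (Polynomial.eval 0) h0
          simp at this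
        · exact h0
      have f4 : f 4 = 0 := by rw [u0, f0, mul_zero]
      have f3 : f 3 = 0 := by rw [u1, f4, mul_zero]
      have f2 : f 2 = 0 := by rw [u2, f3, mul_zero]
      have f1 : f 1 = 0 := by rw [u3, f2, mul_zero]
      apply ih
      intro m
      have hfm : f m = 0 := by fin_cases m <;> assumption
      have := ht m
      rw [hf m, hfm, map_zero, zero_mul, add_zero]
      exact this
  have hbd : ∀ m, ∃ n, p m ∈ Rlt k x y n := fun m =>
    mem_adjoin h.rel (hrs m (Finset.mem_univ m))
  choose N hN using hbd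
  have hall := key (Finset.univ.sup N) fun m =>
    Rlt_mono (Finset.le_sup (f := N) (Finset.mem_univ m)) (hN m)
  funext m
  rcases mul_eq_zero.1 (hall m) with h0 | h0
  · exact absurd h0 hr0
  · exact h0

end Pool.Agent.Helper86K9.QD
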