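import Pool.Agent.Helper86K9.QD.Defs

/-!
# The quadratic relations between the coordinates of `a_0 a_1`
-/

namespace Pool.Agent.Helper86K9.QD

universe u v w

/-- The associativity relations (G) and (H). -/
theorem gh {k : Type u} [Field k] (q : k) (hq : q ≠ 0) {D : Type v} [DivisionRing D] [Algebra k D]
    (F : Subalgebra k D) (a0 a1 a2 a3 a4 m0 m1 m2 m3 m4 w : D)
    (hs : w * (a0 + a1 + a2 + a3 + a4) = 1)
    (h01 : a0 * a1 = m0 * a0 + m1 * a1 + m2 * a2 + m3 * a3 + m4 * a4)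
    (h12 : a1 * a2 = m0 * a1 + m1 * a2 + m2 * a3 + m3 * a4 + m4 * a0)
    (h23 : a2 * a3 = m0 * a2 + m1 * a3 + m2 * a4 + m3 * a0 + m4 * a1)
    (h40 : a4 * a0 = m0 * a4 + m1 * a0 + m2 * a1 + m3 * a2 + m4 * a3)
    (c10 : a1 * a0 = q⁻¹ • (a0 * a1)) (c21 : a2 * a1 = q⁻¹ • (a1 * a2))
    (c32 : a3 * a2 = q⁻¹ • (a2 * a3))
    (e02 : a0 * a2 = a1 + algebraMap k D q⁻¹) (e31 : a3 * a1 = q⁻¹ • a2 + algebraMap k D q⁻¹)
    (e42 : a4 * a2 = q⁻¹ • a3 + algebraMap k D q⁻¹) (e41 : a4 * a1 = a0 + algebraMap k D q⁻¹)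
    (F0 : m0 ∈ F) (F1 : m1 ∈ F) (F2 : m2 ∈ F) (F3 : m3 ∈ F) (F4 : m4 ∈ F) (Fw : w ∈ F)
    (Fs : a0 + a1 + a2 + a3 + a4 ∈ F)
    (ind : ∀ e0 ∈ F, ∀ e1 ∈ F, ∀ e2 ∈ F, ∀ e3 ∈ F, ∀ e4 ∈ F,
      e0 * a0 + e1 * a1 + e2 * a2 + e3 * a3 + e4 * a4 = 0 →
      e0 = 0 ∧ e1 = 0 ∧ e2 = 0 ∧ e3 = 0 ∧ e4 = 0) :
    ∃ T T' : D,
      (-(m3 - m2) * m4 - q⁻¹ • ((m3 - m4) * m3) - 1 + T = 0) ∧
      ((m1 - m3) - (m3 - m2) * m0 - q⁻¹ • ((m3 - m4) * m4) + T = 0) ∧
      (m3 * (a0 + a1 + a2 + a3 + a4) - (m3 - m2) * m1 - q⁻¹ • ((m3 - m4) * m0) + T = 0) ∧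
      (q⁻¹ • (m0 - m3) - (m3 - m2) * m2 - q⁻¹ • ((m3 - m4) * m1) + T = 0) ∧
      (-(m3 - m2) * m3 - q⁻¹ • ((m3 - m4) * m2) - algebraMap k D q⁻¹ + T = 0) ∧
      ((m1 - m2 + 1) * m4 + q⁻¹ • ((m3 - m2) * m3) + q • m0 + algebraMap k D q + T' = 0) ∧
      ((m0 - m2 - q • (a0 + a1 + a2 + a3 + a4) - 1) + (m1 - m2 + 1) * m0
        + q⁻¹ • ((m3 - m2) * m4) + q • m1 + T' = 0) ∧
      (q⁻¹ • (m4 - m2) + (m1 - m2 + 1) * m2 + q⁻¹ • ((m3 - m2) * m1) + q • m3 + T' = 0) ∧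
      ((m1 - m2 + 1) * m3 + q⁻¹ • ((m3 - m2) * m2) + q • m4 + T' = 0) := by
  set s : D := a0 + a1 + a2 + a3 + a4 with hsdef
  have am : ∀ z : D, ∀ c : k, z * algebraMap k D c = c • z := fun z c => by
    rw [Algebra.smul_def, Algebra.commutes]
  have am' : ∀ z : D, ∀ c : k, algebraMap k D c * z = c • z := fun z c => by
    rw [Algebra.smul_def]
  have a1' : ∀ c : k, algebraMap k D c = c • (1 : D) := fun c => by
    rw [Algebra.smul_def, mul_one]
  -- squares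
  have sq2 : a2 * a2 = s * a2 - (a1 + q⁻¹ • (1 : D)) - a1 * a2 - q⁻¹ • (a2 * a3)
      - (q⁻¹ • a3 + q⁻¹ • (1 : D)) := by
    rw [hsdef, add_mul, add_mul, add_mul, add_mul, e02, c32, e42, a1']; abel
  have sq1 : a1 * a1 = s * a1 - a0 * a1 - q⁻¹ • (a1 * a2) - (q⁻¹ • a2 + q⁻¹ • (1 : D))
      - (a0 + q⁻¹ • (1 : D)) := by
    rw [hsdef, add_mul, add_mul, add_mul, add_mul, c21, e31, e41, a1']; abel
  have w1 : (1 : D) = w * a0 + w * a1 + w * a2 + w * a3 + w * a4 := by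
    rw [← hs, hsdef]; simp only [mul_add]
  -- (G)
  have G0 : a4 * a0 * a2 = a4 * (a0 * a2) := mul_assoc _ _ _
  rw [h40, e02, a1', mul_add, e41, a1'] at G0
  simp only [add_mul, mul_assoc, mul_smul_comm, mul_one] at G0
  rw [sq2, c32, e42, e02, a1'] at G0
  -- (H)
  have H0 : a1 * a0 * a2 = a1 * (a0 * a2) := mul_assoc _ _ _
  rw [c10, e02, a1', mul_add, sq1] at H0
  rw [h01] at H0
  simp only [add_mul, mul_assoc, mul_smul_comm, mul_one, smul_mul_assoc] at H0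
  rw [sq2, c32, e42, e02, a1'] at H0
  refine ⟨q⁻¹ • ((m0 - m3 + (m1 - m3) - 1) * w),
    q⁻¹ • ((m0 - m2 + (m4 - m2)) * w) + (2 : k) • w, ?_⟩
  have G1 : (-(m3 - m2) * m4 - q⁻¹ • ((m3 - m4) * m3) - 1
        + q⁻¹ • ((m0 - m3 + (m1 - m3) - 1) * w)) * a0
      + ((m1 - m3) - (m3 - m2) * m0 - q⁻¹ • ((m3 - m4) * m4)
        + q⁻¹ • ((m0 - m3 + (m1 - m3) - 1) * w)) * a1
      + (m3 * s - (m3 - m2) * m1 - q⁻¹ • ((m3 - m4) * m0)
        + q⁻¹ • ((m0 - m3 + (m1 - m3) - 1) * w)) * a2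
      + (q⁻¹ • (m0 - m3) - (m3 - m2) * m2 - q⁻¹ • ((m3 - m4) * m1)
        + q⁻¹ • ((m0 - m3 + (m1 - m3) - 1) * w)) * a3
      + (-(m3 - m2) * m3 - q⁻¹ • ((m3 - m4) * m2) - algebraMap k D q⁻¹
        + q⁻¹ • ((m0 - m3 + (m1 - m3) - 1) * w)) * a4 = 0 := by
    have e : m3 * (s * a2) + (m1 - m3) * a1 + q⁻¹ • ((m0 - m3) * a3)
        - (m3 - m2) * (m0 * a1 + m1 * a2 + m2 * a3 + m3 * a4 + m4 * a0)
        - q⁻¹ • ((m3 - m4) * (m0 * a2 + m1 * a3 + m2 * a4 + m3 * a0 + m4 * a1))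
        + q⁻¹ • ((m0 - m3 + (m1 - m3) - 1) * (w * a0 + w * a1 + w * a2 + w * a3 + w * a4))
        - a0 - q⁻¹ • a4 = 0 := by
      rw [← h12, ← h23, ← w1]
      simp only [mul_add, add_mul, sub_mul, mul_sub, mul_one, one_mul, mul_smul_comm] at G0 ⊢
      linear_combination (norm := module) G0
    rw [← e, a1']
    simp only [mul_add, add_mul, sub_mul, mul_sub, mul_one, one_mul, mul_smul_comm,
      smul_mul_assoc, mul_assoc, neg_mul, smul_add, smul_sub]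
    module
  have H1 : ((m1 - m2 + 1) * m4 + q⁻¹ • ((m3 - m2) * m3) + q • m0 + algebraMap k D q
        + (q⁻¹ • ((m0 - m2 + (m4 - m2)) * w) + (2 : k) • w)) * a0
      + ((m0 - m2 - q • s - 1) + (m1 - m2 + 1) * m0
        + q⁻¹ • ((m3 - m2) * m4) + q • m1
        + (q⁻¹ • ((m0 - m2 + (m4 - m2)) * w) + (2 : k) • w)) * a1
      + (m2 * s + 1 + (m1 - m2 + 1) * m1 + q⁻¹ • ((m3 - m2) * m0) + q • m2
        + (q⁻¹ • ((m0 - m2 + (m4 - m2)) * w) + (2 : k) • w)) * a2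
      + (q⁻¹ • (m4 - m2) + (m1 - m2 + 1) * m2 + q⁻¹ • ((m3 - m2) * m1) + q • m3
        + (q⁻¹ • ((m0 - m2 + (m4 - m2)) * w) + (2 : k) • w)) * a3
      + ((m1 - m2 + 1) * m3 + q⁻¹ • ((m3 - m2) * m2) + q • m4
        + (q⁻¹ • ((m0 - m2 + (m4 - m2)) * w) + (2 : k) • w)) * a4 = 0 := by
    have e : m2 * (s * a2) + (m0 - m2 - q • s - 1) * a1 + q⁻¹ • ((m4 - m2) * a3)
        + (m1 - m2 + 1) * (m0 * a1 + m1 * a2 + m2 * a3 + m3 * a4 + m4 * a0)
        + q⁻¹ • ((m3 - m2) * (m0 * a2 + m1 * a3 + m2 * a4 + m3 * a0 + m4 * a1))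
        + q • (m0 * a0 + m1 * a1 + m2 * a2 + m3 * a3 + m4 * a4)
        + a2 + q • a0
        + q⁻¹ • ((m0 - m2 + (m4 - m2)) * (w * a0 + w * a1 + w * a2 + w * a3 + w * a4))
        + (2 : k) • (w * a0 + w * a1 + w * a2 + w * a3 + w * a4) = 0 := by
      rw [← h12, ← h23, ← w1, ← h01]
      rw [← h01] at H0
      have hq1 : q * q⁻¹ = 1 := mul_inv_cancel₀ hq
      have H0' := (inv_smul_eq_iff₀ hq).1 H0
      simp only [smul_add, smul_sub, smul_smul, hq1, one_smul, mul_one, mul_add, mul_sub,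
        add_mul, sub_mul, one_mul, mul_smul_comm, smul_mul_assoc, mul_assoc] at H0' ⊢
      linear_combination (norm := module) H0'
    rw [← e, a1']
    simp only [mul_add, add_mul, sub_mul, mul_sub, mul_one, one_mul, mul_smul_comm,
      smul_mul_assoc, mul_assoc, neg_mul, smul_add, smul_sub]
    module
  have Fm : ∀ {z}, z ∈ F → -z ∈ F := fun h => F.neg_mem h
  have ind' : ∀ {e0 e1 e2 e3 e4 : D},
      e0 * a0 + e1 * a1 + e2 * a2 + e3 * a3 + e4 * a4 = 0 →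
      e0 ∈ F → e1 ∈ F → e2 ∈ F → e3 ∈ F → e4 ∈ F →
      e0 = 0 ∧ e1 = 0 ∧ e2 = 0 ∧ e3 = 0 ∧ e4 = 0 :=
    fun h i0 i1 i2 i3 i4 => ind _ i0 _ i1 _ i2 _ i3 _ i4 h
  have G2 := ind' G1
  have H2 := ind' H1
  obtain ⟨g0, g1, g2, g3, g4⟩ := G2
    (by
      repeat' first
        | assumption | exact F.one_mem | exact F.algebraMap_mem _ | apply F.add_mem
        | apply F.sub_mem | apply F.mul_mem | apply F.smul_mem | apply Fm)
    (by
      repeat' first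
        | assumption | exact F.one_mem | exact F.algebraMap_mem _ | apply F.add_mem
        | apply F.sub_mem | apply F.mul_mem | apply F.smul_mem | apply Fm)
    (by
      repeat' first
        | assumption | exact F.one_mem | exact F.algebraMap_mem _ | apply F.add_mem
        | apply F.sub_mem | apply F.mul_mem | apply F.smul_mem | apply Fm)
    (by
      repeat' first
        | assumption | exact F.one_mem | exact F.algebraMap_mem _ | apply F.add_mem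
        | apply F.sub_mem | apply F.mul_mem | apply F.smul_mem | apply Fm)
    (by
      repeat' first
        | assumption | exact F.one_mem | exact F.algebraMap_mem _ | apply F.add_mem
        | apply F.sub_mem | apply F.mul_mem | apply F.smul_mem | apply Fm)
  obtain ⟨h0, h1, -, h3, h4⟩ := H2
    (by
      repeat' first
        | assumption | exact F.one_mem | exact F.algebraMap_mem _ | apply F.add_mem
        | apply F.sub_mem | apply F.mul_mem | apply F.smul_mem | apply Fm)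
    (by
      repeat' first
        | assumption | exact F.one_mem | exact F.algebraMap_mem _ | apply F.add_mem
        | apply F.sub_mem | apply F.mul_mem | apply F.smul_mem | apply Fm)
    (by
      repeat' first
        | assumption | exact F.one_mem | exact F.algebraMap_mem _ | apply F.add_mem
        | apply F.sub_mem | apply F.mul_mem | apply F.smul_mem | apply Fm)
    (by
      repeat' first
        | assumption | exact F.one_mem | exact F.algebraMap_mem _ | apply F.add_mem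
        | apply F.sub_mem | apply F.mul_mem | apply F.smul_mem | apply Fm)
    (by
      repeat' first
        | assumption | exact F.one_mem | exact F.algebraMap_mem _ | apply F.add_mem
        | apply F.sub_mem | apply F.mul_mem | apply F.smul_mem | apply Fm)
  exact ⟨g0, g1, g2, g3, g4, h0, h1, h3, h4⟩

end Pool.Agent.Helper86K9.QD
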