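import Pool.Agent.Helper86K9.QD.Rel

/-!
# The seven quadratic relations and their consequences
-/

namespace Pool.Agent.Helper86K9.QD

universe u v w

theorem seven {k : Type u} [Field k] (q : k) (hq : q ≠ 0) {D : Type v} [DivisionRing D]
    [Algebra k D] (m3 u v P R s T T' : D)
    (g0 : -v * (m3 - u) - q⁻¹ • (u * m3) - 1 + T = 0)
    (g1 : R - v * (m3 + P) - q⁻¹ • (u * (m3 - u)) + T = 0)
    (g2 : m3 * s - v * (m3 + R) - q⁻¹ • (u * (m3 + P)) + T = 0)
    (g3 : q⁻¹ • P - v * (m3 - v) - q⁻¹ • (u * (m3 + R)) + T = 0)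
    (g4 : -v * m3 - q⁻¹ • (u * (m3 - v)) - algebraMap k D q⁻¹ + T = 0)
    (h0 : (R + v + 1) * (m3 - u) + q⁻¹ • (v * m3) + q • (m3 + P) + algebraMap k D q + T' = 0)
    (h1 : (P + v - q • s - 1) + (R + v + 1) * (m3 + P)
        + q⁻¹ • (v * (m3 - u)) + q • (m3 + R) + T' = 0)
    (h3 : q⁻¹ • (v - u) + (R + v + 1) * (m3 - v) + q⁻¹ • (v * (m3 + R)) + q • m3 + T' = 0)
    (h4 : (R + v + 1) * m3 + q⁻¹ • (v * (m3 - v)) + q • (m3 - u) + T' = 0) :
    (u * v = q • (v * u) + (1 - q) • (1 : D)) ∧
    (P = u * R + u * v - q • (v * v) - 1) ∧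
    (R = v * P + v * u - q⁻¹ • (u * u) - 1) ∧
    (m3 * s = v * R + q⁻¹ • (u * P) + q⁻¹ • (u * v) - q⁻¹ • (1 : D)) ∧
    (R * u = q • P - v * u + q⁻¹ • (v * v) + (q - 1) • u + q • (1 : D)) ∧
    (R * v = q⁻¹ • (v * R) + (q⁻¹ - 1) • (v * v) - (1 - q⁻¹) • v + (q - q⁻¹) • u) ∧
    (q • s = P + v - 1 + (R + v + 1) * (P + u) - q⁻¹ • (v * u) + q • R - q • P - q • (1 : D)) := by
  have a1' : ∀ c : k, algebraMap k D c = c • (1 : D) := fun c => by
    rw [Algebra.smul_def, mul_one]
  have hq1 : q * q⁻¹ = 1 := mul_inv_cancel₀ hq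
  have inj : ∀ {a b : D}, q⁻¹ • a = q⁻¹ • b → a = b := fun {a b} h => by
    have := congrArg (fun z => q • z) h
    simpa [smul_smul, hq1] using this
  simp only [a1', mul_add, add_mul, mul_sub, sub_mul, neg_mul, smul_add, smul_sub, one_mul,
    mul_one] at g0 g1 g2 g3 g4 h0 h1 h3 h4 ⊢
  have R1 : u * v = q • (v * u) + (1 - q) • (1 : D) := by
    apply inj
    rw [sub_smul]
    simp only [smul_add, smul_sub, smul_smul, inv_mul_cancel₀ hq, one_smul, mul_one]
    linear_combination (norm := module) g4 - g0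
  refine ⟨R1, ?_, ?_, ?_, ?_, ?_, ?_⟩
  · apply inj
    simp only [smul_add, smul_sub, smul_smul, inv_mul_cancel₀ hq, one_smul]
    linear_combination (norm := module) g3 - g4
  · linear_combination (norm := module) g1 - g0
  · linear_combination (norm := module) g2 - g4
  · linear_combination (norm := module) h4 - h0
  · linear_combination (norm := module) h4 - h3
  · linear_combination (norm := module) h0 - h1

/-- `u ≠ 0` and `u v ≠ 1`. -/
theorem nonzero {k : Type u} [Field k] (q : k) (hq : q ≠ 0) (q1 : q ≠ 1) (q5 : q ^ 5 ≠ 1)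
    {D : Type v} [DivisionRing D] [Algebra k D] (u v P R : D)
    (r1 : u * v = q • (v * u) + (1 - q) • (1 : D))
    (r2 : P = u * R + u * v - q • (v * v) - 1)
    (r3 : R = v * P + v * u - q⁻¹ • (u * u) - 1)
    (r5 : R * u = q • P - v * u + q⁻¹ • (v * v) + (q - 1) • u + q • (1 : D))
    (r6 : R * v = q⁻¹ • (v * R) + (q⁻¹ - 1) • (v * v) - (1 - q⁻¹) • v + (q - q⁻¹) • u) :
    u ≠ 0 ∧ u * v ≠ 1 := by
  have hq1 : q * q⁻¹ = 1 := mul_inv_cancel₀ hq
  refine ⟨?_, ?_⟩
  · rintro rfl
    rw [zero_mul, mul_zero, smul_zero, zero_add] at r1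
    have := smul_eq_zero.1 r1.symm
    rcases this with h | h
    · exact q1 (sub_eq_zero.1 h).symm
    · exact one_ne_zero h
  · intro huv
    have hu : u ≠ 0 := by
      rintro rfl
      rw [zero_mul] at huv
      exact zero_ne_one huv
    have hv : v = u⁻¹ := by
      rw [← mul_one u⁻¹, ← huv, ← mul_assoc, inv_mul_cancel₀ hu, one_mul]
    have hvu : v * u = 1 := by rw [hv, inv_mul_cancel₀ hu]
    rw [huv] at r2
    rw [hvu] at r3 r5
    have r2' : u * R = P + q • (v * v) := by
      rw [r2]; abel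
    have r3' : R = v * P - q⁻¹ • (u * u) := by
      rw [r3]; abel
    -- first equation: q⁻¹ u³ = - q v²
    have E1 : q⁻¹ • (u * u * u) = - (q • (v * v)) := by
      have : u * R = P - q⁻¹ • (u * u * u) := by
        rw [r3', mul_sub, ← mul_assoc, huv, one_mul, mul_smul_comm, ← mul_assoc]
      rw [r2'] at this
      linear_combination (norm := module) this
    -- second equation
    have I : P * v + q • (v * v * v) = q⁻¹ • (v * P) - (q⁻¹ * q⁻¹) • (u * u)
        + (q⁻¹ - 1) • v - (1 - q⁻¹) • (1 : D) + (q - q⁻¹) • (u * u) := by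
      have h := congrArg (fun z => u * z) r6
      simp only [mul_add, mul_sub, mul_smul_comm] at h
      rw [← mul_assoc, r2', ← mul_assoc, ← mul_assoc, huv, one_mul, one_mul, r3'] at h
      simp only [add_mul, smul_mul_assoc, smul_sub, smul_smul] at h
      linear_combination (norm := module) h
    have II : v * P - q⁻¹ • (u * u) = q • (P * v) + q⁻¹ • (v * v * v) + (q - 1) • (1 : D)
        + (q - 1) • v := by
      have h := congrArg (fun z => z * v) r5
      simp only [add_mul, sub_mul, smul_mul_assoc, mul_assoc, huv, one_mul, mul_one] at h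
      rw [r3'] at h
      simp only [← mul_assoc] at h ⊢
      linear_combination (norm := module) h
    have E2 : (q ^ 2 - q⁻¹) • (v * v * v) = (q ^ 2 - 1) • (u * u) := by
      have h : q • (P * v) + (q * q) • (v * v * v) = v * P - q⁻¹ • (u * u)
        + (1 - q) • v - (q - 1) • (1 : D) + (q * q - 1) • (u * u) := by
        have h := congrArg (fun z => q • z) I
        simp only [smul_add, smul_sub, smul_smul, sub_smul, mul_sub, hq1, one_smul, mul_one,
          ← mul_assoc, one_mul] at h ⊢
        linear_combination (norm := module) h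
      rw [II] at h
      linear_combination (norm := module) h
    have hcomm : Commute u v := by rw [hv]; exact (Commute.refl u).inv_right₀
    have u5 : u ^ 5 = -(q ^ 2) • (1 : D) := by
      have h := congrArg (fun z => q • (z * (u * u))) E1
      simp only [smul_mul_assoc, smul_smul, hq1, one_smul, neg_mul, smul_neg] at h
      have e1 : v * v * (u * u) = 1 := by
        rw [mul_assoc, ← mul_assoc v u u, hvu, one_mul, hvu]
      rw [e1] at h
      calc u ^ 5 = u * u * u * (u * u) := by simp only [pow_succ, pow_zero, one_mul, mul_assoc]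
        _ = _ := by rw [h, pow_two, neg_smul]
    have h := congrArg (fun z => z * (u * u * u)) E2
    simp only [smul_mul_assoc] at h
    have e1 : v * v * v * (u * u * u) = 1 := by
      have : v * (u * u * u) = u * u := by rw [← mul_assoc, ← mul_assoc, hvu, one_mul]
      rw [mul_assoc, this, mul_assoc, ← mul_assoc v u u, hvu, one_mul, hvu]
    have e2 : u * u * (u * u * u) = u ^ 5 := by
      simp only [pow_succ, pow_zero, one_mul, mul_assoc]
    rw [e1, e2, u5, smul_smul, ← sub_eq_zero, ← sub_smul] at h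
    rcases smul_eq_zero.1 h with h | h
    · apply q5
      field_simp at h
      linear_combination h
    · exact one_ne_zero h

/-- Everything lies in the division subring generated by `u` and `v`. -/
theorem mem_E {k : Type u} [Field k] (q : k) (hq : q ≠ 0)
    {D : Type v} [DivisionRing D] [Algebra k D] (m3 u v P R s : D)
    (r2 : P = u * R + u * v - q • (v * v) - 1)
    (r3 : R = v * P + v * u - q⁻¹ • (u * u) - 1)
    (r4 : m3 * s = v * R + q⁻¹ • (u * P) + q⁻¹ • (u * v) - q⁻¹ • (1 : D))
    (r7 : q • s = P + v - 1 + (R + v + 1) * (P + u) - q⁻¹ • (v * u) + q • R - q • P - q • (1 : D))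
    (hu : u ≠ 0) (huv : u * v ≠ 1) (hs : s ≠ 0)
    (E : Subalgebra k D) (hinv : ∀ z ∈ E, z⁻¹ ∈ E) (uE : u ∈ E) (yE : u * v - 1 ∈ E) :
    v ∈ E ∧ P ∈ E ∧ R ∈ E ∧ s ∈ E ∧ m3 ∈ E := by
  have vE : v ∈ E := by
    have : v = u⁻¹ * ((u * v - 1) + 1) := by
      rw [sub_add_cancel, ← mul_assoc, inv_mul_cancel₀ hu, one_mul]
    rw [this]
    exact E.mul_mem (hinv _ uE) (E.add_mem yE E.one_mem)
  have PE : P ∈ E := by
    have h : (u * v - 1) * P = -(u * (v * u) - q⁻¹ • (u * (u * u)) - u + u * v
        - q • (v * v) - 1) := by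
      have h := r2
      rw [r3] at h
      simp only [mul_add, mul_sub, mul_smul_comm, mul_one, ← mul_assoc, sub_mul, one_mul] at h ⊢
      linear_combination (norm := module) -h
    have h2 : P = (u * v - 1)⁻¹ * (-(u * (v * u) - q⁻¹ • (u * (u * u)) - u + u * v
        - q • (v * v) - 1)) := by
      rw [← h, ← mul_assoc, inv_mul_cancel₀ (sub_ne_zero.2 huv), one_mul]
    rw [h2]
    have Em : ∀ {z}, z ∈ E → -z ∈ E := fun h => E.neg_mem h
    refine E.mul_mem (hinv _ yE) (Em ?_)
    repeat' first
        | assumption | exact E.one_mem | apply E.add_mem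
        | apply E.sub_mem | apply E.mul_mem | apply E.smul_mem
  have RE : R ∈ E := by
    rw [r3]
    repeat' first
        | assumption | exact E.one_mem | apply E.add_mem
        | apply E.sub_mem | apply E.mul_mem | apply E.smul_mem
  have sE : s ∈ E := by
    have : s = q⁻¹ • (q • s) := by rw [smul_smul, inv_mul_cancel₀ hq, one_smul]
    rw [this, r7]
    repeat' first
        | assumption | exact E.one_mem | apply E.add_mem
        | apply E.sub_mem | apply E.mul_mem | apply E.smul_mem
  have mE : m3 ∈ E := by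
    have : m3 = (m3 * s) * s⁻¹ := by rw [mul_assoc, mul_inv_cancel₀ hs, mul_one]
    rw [this, r4]
    refine E.mul_mem ?_ (hinv _ sE)
    repeat' first
        | assumption | exact E.one_mem | apply E.add_mem
        | apply E.sub_mem | apply E.mul_mem | apply E.smul_mem
  exact ⟨vE, PE, RE, sE, mE⟩

end Pool.Agent.Helper86K9.QD
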